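import Pool.Agent.H65.STB.Vtg
import Pool.Agent.H98.STB.Cut0

/-!
# The input of the jets for any target over two coordinates, with a loss

`vtg`: a target over the time and `c 0`, `c 1` with labels at a list of balls and a closed label of
the window with a loss; the input `InpL`.
-/

set_option autoImplicit false

namespace Pool.STB65.Ls

open Finset Real MvPolynomial
open Pool.Agent.H49.Ent Pool.Agent.H32.Dense Pool.STK Pool.KA Pool.KSAT Pool.K2S Pool.PB Pool.S6C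
open Pool.GEN Pool.CHT Pool.NVX
open Pool.STB (V3 Po Bx InpL N1L)
open Pool.STB77 (Inc vpl vpt vnr ypt cos cos_slam vpl_deg vpl_eval)
open Pool.STB82 (yv)
open Pool.PB.Trl (rt rt_mem t_rt)

variable {m J : ℕ}

/-- A larger number `Y`. -/
theorem inpl_up {F : Fam m J} {B : F.Ω → Prop} {W₀ N K b Lx : ℕ} {Y Y' : ℝ} {y : F.Ω → V3}
    {e : ℕ → ℕ} {f : ℕ → PtT F → Po} {f' : ℕ → LnT F → Po} {kf : LnT F → Po}
    (h : InpL F B W₀ N K b Lx Y y e f f' kf) (hY : Y ≤ Y') :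
    InpL F B W₀ N K b Lx Y' y e f f' kf := by
  have h1 : ∀ x : ℝ, 0 ≤ x → Y * x ≤ Y' * x := fun x hx => mul_le_mul_of_nonneg_right hY hx
  refine ⟨h.fd, h.kd, fun j hj => ⟨(h.em j hj).1, (h.em j hj).2.trans (h1 _ (by positivity))⟩,
    fun ω hω r hr => (h.f0 ω hω r hr).trans hY, fun ω hω j hj r hr => (h.ch ω hω j hj r hr).trans
    (h1 _ (by positivity)), fun ω hω r hr => (h.nr ω hω r hr).trans ?_, h.fd',
    fun j hj ω hω r hr => (h.agr j hj ω hω r hr).trans (h1 _ (by positivity))⟩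
  rw [mul_assoc, mul_assoc]
  exact h1 _ (by positivity)

section

variable {F : Fam m J} {c : ℕ → Fin m} {D N W s v : ℕ} {A : ℕ → ℕ} {e : ℕ → ℕ}
    {g : ℕ → ℕ → ℕ} {B : F.Ω → Prop} {G : ℕ → PtT F → ℕ → MvPolynomial (Option (Fin m)) ℝ}
    {H : ℕ → LnT F → ℕ → MvPolynomial (Option (Fin m)) ℝ}
    {pP : PtT F → ℕ → MvPolynomial (Option (Fin m)) ℝ}
    {pH : LnT F → ℕ → MvPolynomial (Option (Fin m)) ℝ}

/-- **A target over the two first coordinates** of a list of balls: labels `QP` (visible), `QH`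
(closed, of the window of the ball), a closed label `QS` of the window `W`, and a closed polynomial
`zP`, `zH` near the label of the first ball. -/
structure TgV (F : Fam m J) (c : ℕ → Fin m) (D N W s Lx : ℕ) (A : ℕ → ℕ) (g : ℕ → ℕ → ℕ)
    (B : F.Ω → Prop) (G : ℕ → PtT F → ℕ → MvPolynomial (Option (Fin m)) ℝ)
    (pP : PtT F → ℕ → MvPolynomial (Option (Fin m)) ℝ) (b g₃ : ℕ)
    (QP : ℕ → PtT F → MvPolynomial (Option (Fin m)) ℝ)
    (QH : ℕ → LnT F → MvPolynomial (Option (Fin m)) ℝ)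
    (QS : LnT F → MvPolynomial (Option (Fin m)) ℝ)
    (zP : PtT F → MvPolynomial (Option (Fin m)) ℝ)
    (zH : LnT F → MvPolynomial (Option (Fin m)) ℝ) : Prop where
  dP : ∀ k ≤ N, ∀ y, (QP k y).totalDegree ≤ D
  dH : ∀ k ≤ N, ∀ y, (QH k y).totalDegree ≤ D
  dS : ∀ y, (QS y).totalDegree ≤ D
  dz : ∀ y, (zP y).totalDegree ≤ D
  dzH : ∀ y, (zH y).totalDegree ≤ D
  eP : ∀ k ≤ N, ∀ y, DepC c 2 (QP k y)
  eH : ∀ k ≤ N, ∀ y, DepC c 2 (QH k y)
  ez : ∀ y, DepC c 2 (zP y)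
  zc : ∀ ω, B ω → zP (ptr F J ω) = zH (slam F W ω)
  uni : ∀ k < N, ∀ ω, B ω → ∀ b', NBx c (G (k + 1) (ptr F J ω)) (g (k + 1)) (A (k + 1)) (F.t ω)
    2 b' → |eval b' (QP (k + 1) (ptr F J ω)) - eval b' (QP k (ptr F J ω))| ≤
      2 ^ s / 2 ^ (g₃ + b * (A k - W))
  agr : ∀ k ≤ N, ∀ ω, B ω → ∀ b', NBx c (G k (ptr F J ω)) (g k) (A k) (F.t ω) 2 b' →
    |eval b' (QP k (ptr F J ω)) - eval b' (QH k (slam F (A k) ω))| ≤
      2 ^ s / 2 ^ (g₃ + b * (A k - W))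
  sta : ∀ ω, B ω → ∀ r, Bx (1 / 2 ^ (A N - W)) r →
    |eval (vnr F c W (g 0 1) (pP (ptr F J ω) 1) ω r) (QS (slam F W ω)) -
      eval (vnr F c W (g 0 1) (pP (ptr F J ω) 1) ω r) (QP N (ptr F J ω))| ≤
        2 ^ (s + Lx) / 2 ^ (g₃ + b * (A N - W))
  zer : ∀ ω, B ω → ∀ b', NBx c (G 0 (ptr F J ω)) (g 0) (A 0) (F.t ω) 2 b' →
    |eval b' (QP 0 (ptr F J ω)) - eval b' (zP (ptr F J ω))| ≤ 2 ^ s / 2 ^ g₃

end

/-- **The input of the jets** for a target over the two first coordinates. -/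
theorem vtg (D b : ℕ) : ∃ C : ℕ, ∀ {m J : ℕ} {F : Fam m J} {c : ℕ → Fin m} {N W s v Lx g₃ : ℕ}
    {A : ℕ → ℕ} {e : ℕ → ℕ} {g : ℕ → ℕ → ℕ} {B : F.Ω → Prop}
    {G : ℕ → PtT F → ℕ → MvPolynomial (Option (Fin m)) ℝ}
    {H : ℕ → LnT F → ℕ → MvPolynomial (Option (Fin m)) ℝ}
    {pP : PtT F → ℕ → MvPolynomial (Option (Fin m)) ℝ}
    {pH : LnT F → ℕ → MvPolynomial (Option (Fin m)) ℝ}
    {QP : ℕ → PtT F → MvPolynomial (Option (Fin m)) ℝ}
    {QH : ℕ → LnT F → MvPolynomial (Option (Fin m)) ℝ}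
    {QS : LnT F → MvPolynomial (Option (Fin m)) ℝ}
    {zP : PtT F → MvPolynomial (Option (Fin m)) ℝ}
    {zH : LnT F → MvPolynomial (Option (Fin m)) ℝ},
    Inc F c D N W s v A e g B G H pP pH → N ≤ s →
    TgV F c D N W s Lx A g B G pP b g₃ QP QH QS zP zH →
    InpL F B W N (D * (D + 1)) b Lx (2 ^ (C * (s + v + 1))) (yv F c W (g 0 1) (fun S => pH S 1))
      (fun k => A k - W)
      (fun k => tgP F c W (g 0 1) g₃ (fun y => pP y 1) (fun y => QP (min k N) y - zP y))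
      (fun k => tgH F c W (A (min k N)) (g 0 1) g₃ (fun S => pH S 1)
        (fun S => QH (min k N) S - zH (cos F W (A (min k N)) S)))
      (tgK F c W (g 0 1) g₃ (fun S => pH S 1) (fun S => QS S - zH S)) := by
  obtain ⟨C₁, hv⟩ := vdlz D
  refine ⟨C₁ + 1, ?_⟩
  intro m J F c N W s v Lx g₃ A e g B G H pP pH QP QH QS zP zH I hNs T
  have pw : ∀ {x y : ℕ}, x ≤ y → (2 : ℝ) ^ x ≤ 2 ^ y := fun h => pow_le_pow_right₀ (by norm_num) h
  have e2 : (2 : ℝ) ^ (C₁ * (s + v + 1)) * 2 ^ s ≤ 2 ^ ((C₁ + 1) * (s + v + 1)) := by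
    rw [← pow_add]
    exact pw (by nlinarith)
  have hpc : ∀ ω, B ω → pH (slam F W ω) 1 = pP (ptr F J ω) 1 := fun ω hω => (I.pc ω hω 1).symm
  have hyv : ∀ ω, B ω → yv F c W (g 0 1) (fun S => pH S 1) ω =
      ypt F c W (g 0 1) (pP (ptr F J ω) 1) ω := fun ω hω =>
    yv_ypt F c W (g 0 1) (fun S => pH S 1) _ ω (hpc ω hω)
  have num : ∀ {x : ℕ} {E : ℝ},
      |E| ≤ 2 ^ (C₁ * (s + v + 1)) * (2 ^ s / 2 ^ (g₃ + b * x)) →
      |2 ^ g₃ * E| ≤ 2 ^ ((C₁ + 1) * (s + v + 1)) * (1 / 2 ^ x) ^ b := by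
    intro x E hE
    rw [abs_mul, abs_of_pos (by positivity : (0 : ℝ) < 2 ^ g₃)]
    have e3 : (2 : ℝ) ^ g₃ / 2 ^ (g₃ + b * x) = (1 / 2 ^ x) ^ b := by
      rw [one_div, inv_pow, ← pow_mul, pow_add, Nat.mul_comm x b]
      field_simp
    calc (2 : ℝ) ^ g₃ * |E| ≤ 2 ^ g₃ * (2 ^ (C₁ * (s + v + 1)) * (2 ^ s / 2 ^ (g₃ + b * x))) :=
          mul_le_mul_of_nonneg_left hE (by positivity)
      _ = 2 ^ (C₁ * (s + v + 1)) * 2 ^ s * (2 ^ g₃ / 2 ^ (g₃ + b * x)) := by ring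
      _ = 2 ^ (C₁ * (s + v + 1)) * 2 ^ s * (1 / 2 ^ x) ^ b := by rw [e3]
      _ ≤ _ := mul_le_mul_of_nonneg_right e2 (by positivity)
  have hsub : ∀ {a b' : MvPolynomial (Option (Fin m)) ℝ}, DepC c 2 a → DepC c 2 b' →
      DepC c 2 (a - b') := fun h1 h2 x y hn hb => by
    rw [map_sub, map_sub, h1 x y hn hb, h2 x y hn hb]
  have hdeg : ∀ {a b' : MvPolynomial (Option (Fin m)) ℝ}, a.totalDegree ≤ D →
      b'.totalDegree ≤ D → (a - b').totalDegree ≤ D := fun h1 h2 =>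
    (totalDegree_sub _ _).trans (max_le h1 h2)
  have cas : ∀ x y z : ℝ, x - z - (y - z) = x - y := fun x y z => by ring
  refine ⟨?_, ?_, ?_, ?_, ?_, ?_, ?_, ?_⟩
  · exact fun k y => tg_deg c W _ _ _ (I.pd y 1) (hdeg (T.dP _ (min_le_right k N) y) (T.dz y))
  · exact fun S => tg_deg c W _ _ _ (I.hd S 1) (hdeg (T.dS S) (T.dzH S))
  · intro k hk
    have h1 := I.Am k hk
    have h2 := I.Av k hk
    refine ⟨Nat.sub_le_sub_right h1 W, ?_⟩
    rw [← pow_add]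
    refine pw ?_
    have h3 : v ≤ (C₁ + 1) * (s + v + 1) := by nlinarith
    omega
  · intro ω hω r hr
    have e0 : A 0 - W = 0 := by rw [I.A0]; omega
    have h1 := hv (Q := QP 0 (ptr F J ω) - zP (ptr F J ω)) (M := 2 ^ s / 2 ^ g₃) I hNs
      (Nat.zero_le N) hω (r := r) (by rw [e0, pow_zero, div_one]; exact hr)
      (hdeg (T.dP 0 (Nat.zero_le N) _) (T.dz _)) (hsub (T.eP 0 (Nat.zero_le N) _) (T.ez _))
      (by positivity) (fun b' hb => by
        rw [map_sub]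
        exact T.zer ω hω b' hb)
    show |eval (yv F c W (g 0 1) (fun S => pH S 1) ω + r) (tgP F c W (g 0 1) g₃ (fun y => pP y 1)
      (fun y => QP (min 0 N) y - zP y) (ptr F J ω))| ≤ _
    rw [Nat.min_eq_left (Nat.zero_le N), hyv ω hω, tgP_eval F c W (g 0 1) g₃ (fun y => pP y 1)]
    refine (num (x := 0) (by rw [mul_zero, add_zero]; exact h1)).trans (le_of_eq ?_)
    rw [pow_zero, div_one, one_pow, mul_one]
  · intro ω hω k hk r hr
    have h1 := hv (Q := QP (k + 1) (ptr F J ω) - QP k (ptr F J ω))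
      (M := 2 ^ s / 2 ^ (g₃ + b * (A k - W))) I hNs (k := k + 1) (by omega) hω (r := r) hr
      (hdeg (T.dP _ (by omega) _) (T.dP _ hk.le _))
      (hsub (T.eP _ (by omega) _) (T.eP _ hk.le _)) (by positivity) (fun b' hb => by
        rw [map_sub]
        exact T.uni k hk ω hω b' hb)
    show |eval (yv F c W (g 0 1) (fun S => pH S 1) ω + r) (tgP F c W (g 0 1) g₃ (fun y => pP y 1)
      (fun y => QP (min (k + 1) N) y - zP y) (ptr F J ω)) -
      eval (yv F c W (g 0 1) (fun S => pH S 1) ω + r) (tgP F c W (g 0 1) g₃ (fun y => pP y 1)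
      (fun y => QP (min k N) y - zP y) (ptr F J ω))| ≤ _
    rw [Nat.min_eq_left hk.le, Nat.min_eq_left (show k + 1 ≤ N by omega), hyv ω hω, tgP_eval F c W (g 0 1) g₃ (fun y => pP y 1),
      tgP_eval F c W (g 0 1) g₃ (fun y => pP y 1), ← mul_sub, map_sub, map_sub, cas, ← map_sub]
    exact num h1
  · intro ω hω r hr
    have h0 := T.sta ω hω r hr
    have h1 : |eval (vnr F c W (g 0 1) (pP (ptr F J ω) 1) ω r)
        (QS (slam F W ω) - QP N (ptr F J ω))| ≤ 2 ^ Lx *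
        (2 ^ (C₁ * (s + v + 1)) * (2 ^ s / 2 ^ (g₃ + b * (A N - W)))) := by
      rw [map_sub]
      refine h0.trans ?_
      rw [pow_add]
      calc (2 : ℝ) ^ s * 2 ^ Lx / 2 ^ (g₃ + b * (A N - W)) =
            2 ^ Lx * (1 * (2 ^ s / 2 ^ (g₃ + b * (A N - W)))) := by ring
        _ ≤ _ := mul_le_mul_of_nonneg_left (mul_le_mul_of_nonneg_right
            (one_le_pow₀ (by norm_num)) (by positivity)) (by positivity)
    show |eval (yv F c W (g 0 1) (fun S => pH S 1) ω + r) (tgK F c W (g 0 1) g₃ (fun S => pH S 1)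
      (fun S => QS S - zH S) (slam F W ω)) -
      eval (yv F c W (g 0 1) (fun S => pH S 1) ω + r) (tgP F c W (g 0 1) g₃ (fun y => pP y 1)
      (fun y => QP (min N N) y - zP y) (ptr F J ω))| ≤ _
    rw [Nat.min_self, hyv ω hω, tgP_eval F c W (g 0 1) g₃ (fun y => pP y 1),
      tgK_eval F c W (g 0 1) g₃ (fun S => pH S 1) _ _ ω (hpc ω hω), ← mul_sub, map_sub,
      ← T.zc ω hω, map_sub, cas, ← map_sub]
    have h2 := num (x := A N - W) (E := eval (vnr F c W (g 0 1) (pP (ptr F J ω) 1) ω r)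
      (QS (slam F W ω) - QP N (ptr F J ω)) / 2 ^ Lx) (by
        rw [abs_div, abs_of_pos (by positivity : (0 : ℝ) < 2 ^ Lx), div_le_iff₀ (by positivity),
          mul_comm]
        exact h1)
    rw [mul_div_assoc', abs_div, abs_of_pos (by positivity : (0 : ℝ) < 2 ^ Lx),
      div_le_iff₀ (by positivity)] at h2
    refine h2.trans (le_of_eq ?_)
    show _ = 2 ^ ((C₁ + 1) * (s + v + 1)) * 2 ^ Lx * (1 / 2 ^ (A N - W)) ^ b
    ring
  · exact fun k S => tg_deg c W _ _ _ (I.hd _ 1)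
      (hdeg (T.dH _ (min_le_right k N) S) (T.dzH _))
  · intro k hk ω hω r hr
    have h1 := hv (Q := QP k (ptr F J ω) - QH k (slam F (A k) ω))
      (M := 2 ^ s / 2 ^ (g₃ + b * (A k - W))) I hNs hk hω (r := r) hr
      (hdeg (T.dP _ hk _) (T.dH _ hk _)) (hsub (T.eP _ hk _) (T.eH _ hk _)) (by positivity)
      (fun b' hb => by
        rw [map_sub]
        exact T.agr k hk ω hω b' hb)
    have hW := I.AW k hk
    show |eval (yv F c W (g 0 1) (fun S => pH S 1) ω + r) (tgP F c W (g 0 1) g₃ (fun y => pP y 1)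
      (fun y => QP (min k N) y - zP y) (ptr F J ω)) -
      eval (yv F c W (g 0 1) (fun S => pH S 1) ω + r) (tgH F c W (A (min k N)) (g 0 1) g₃
      (fun S => pH S 1) (fun S => QH (min k N) S - zH (cos F W (A (min k N)) S))
        (slam F (W + (A k - W)) ω))| ≤ _
    rw [Nat.min_eq_left hk, show W + (A k - W) = A k by omega, hyv ω hω,
      tgP_eval F c W (g 0 1) g₃ (fun y => pP y 1),
      tgH_eval F c hW (I.AJ k hk) (g 0 1) g₃ (fun S => pH S 1) _ _ ω (hpc ω hω), ← mul_sub,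
      map_sub, cos_slam F hW (I.AJ k hk), ← T.zc ω hω, map_sub, cas, ← map_sub]
    exact num h1

end Pool.STB65.Ls
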