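import Pool.Agent.H65.STB.Mxs
import Pool.Agent.H65.STL.Vnl

/-!
# The static target from a list of nodes, with a loss

`NsN`: the numbers. `nsu_pre`: the fields of `Nsu` from a list of nodes and blind closed labels at
the balls, if the mixed derivative is given. `nsu_of`: the mixed derivative from the static chain.
-/

set_option autoImplicit false

namespace Pool.STB65.Ls

open Finset Real MvPolynomial
open Pool.Agent.H49.Ent Pool.Agent.H32.Dense Pool.STK Pool.KA Pool.KSAT Pool.K2S Pool.PB Pool.S6C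
open Pool.GEN Pool.CHT Pool.NVX
open Pool.GRD (LbP)
open Pool.SHR (dir dir_sub)
open Pool.STB77 (Tgt Nls NodW tgt_of cos cos_slam opt)

variable {m J : ℕ}

/-- **The numbers of a static target**: the list of the balls `ι` and of the static nodes `σ`;
precisions `q'` of the closed labels. -/
structure NsN (s₁ b N W g₃ gS Lx : ℕ) (A ι σ q' : ℕ → ℕ) (g : ℕ → ℕ → ℕ) : Prop where
  lv : ∀ k ≤ N, g₃ + b * (A k - W) ≤ g (ι k) 3 + s₁
  lq : ∀ k ≤ N, g₃ + b * (A k - W) ≤ q' k + s₁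
  gS0 : g₃ + b * (A N - W) ≤ gS + Lx
  ls : gS ≤ g (σ N) 3 + s₁
  gsn : ∀ l < 3, g (σ N) l ≤ g (ι N) l + s₁
  gm : ∀ k < N, ∀ l < 3, g (ι k) l ≤ g (ι (k + 1)) l + s₁

/-- Larger degrees. -/
theorem nsu_up {F : Fam m J} {c : ℕ → Fin m} {D D' N W s b g₃ gS Lx : ℕ} {A : ℕ → ℕ}
    {g : ℕ → ℕ → ℕ} {B : F.Ω → Prop} {G : ℕ → PtT F → ℕ → MvPolynomial (Option (Fin m)) ℝ}
    {LP : ℕ → PtT F → MvPolynomial (Option (Fin m)) ℝ}
    {LH : ℕ → LnT F → MvPolynomial (Option (Fin m)) ℝ}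
    {HS US : LnT F → MvPolynomial (Option (Fin m)) ℝ}
    {Gx : PtT F → MvPolynomial (Option (Fin m)) ℝ} {Gl : LnT F → MvPolynomial (Option (Fin m)) ℝ}
    {gs : ℕ → ℕ} {Gs : PtT F → ℕ → MvPolynomial (Option (Fin m)) ℝ} {yN : F.Ω → ℝ}
    (T : Nsu F c D N W s b g₃ gS Lx A g B G LP LH HS US Gx Gl gs Gs yN) (h : D ≤ D') :
    Nsu F c D' N W s b g₃ gS Lx A g B G LP LH HS US Gx Gl gs Gs yN :=
  { T with
    dP := fun k hk y => (T.dP k hk y).trans h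
    dH := fun k hk S => (T.dH k hk S).trans h
    dS := fun S => (T.dS S).trans h
    dU := fun S => (T.dU S).trans h
    dx := fun y => (T.dx y).trans h
    dl := fun S => (T.dl S).trans h
    dGs := fun y l => (T.dGs y l).trans h }

/-- Smaller events. -/
theorem nsu_sub {F : Fam m J} {c : ℕ → Fin m} {D N W s b g₃ gS Lx : ℕ} {A : ℕ → ℕ}
    {g : ℕ → ℕ → ℕ} {B B' : F.Ω → Prop} {G : ℕ → PtT F → ℕ → MvPolynomial (Option (Fin m)) ℝ}
    {LP : ℕ → PtT F → MvPolynomial (Option (Fin m)) ℝ}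
    {LH : ℕ → LnT F → MvPolynomial (Option (Fin m)) ℝ}
    {HS US : LnT F → MvPolynomial (Option (Fin m)) ℝ}
    {Gx : PtT F → MvPolynomial (Option (Fin m)) ℝ} {Gl : LnT F → MvPolynomial (Option (Fin m)) ℝ}
    {gs : ℕ → ℕ} {Gs : PtT F → ℕ → MvPolynomial (Option (Fin m)) ℝ} {yN : F.Ω → ℝ}
    (T : Nsu F c D N W s b g₃ gS Lx A g B G LP LH HS US Gx Gl gs Gs yN) (h : Sub B' B) :
    Nsu F c D N W s b g₃ gS Lx A g B' G LP LH HS US Gx Gl gs Gs yN :=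
  { T with
    gc := fun ω hω => T.gc ω (h ω hω)
    pos := fun k hk ω hω => T.pos k hk ω (h ω hω)
    agr := fun k hk ω hω => T.agr k hk ω (h ω hω)
    uni := fun k hk ω hω => T.uni k hk ω (h ω hω)
    bl := fun k hk ω hω => T.bl k hk ω (h ω hω)
    sta := fun ω hω => T.sta ω (h ω hω)
    nr := fun l hl ω hω => T.nr l hl ω (h ω hω)
    us := fun ω hω => T.us ω (h ω hω)
    mx := fun ω hω => T.mx ω (h ω hω) }

/-- **The static target from a list of nodes**, if the mixed derivative is given. -/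
theorem nsu_pre (D b : ℕ) (hD : 1 ≤ D) : ∃ C : ℕ, ∀ {m J : ℕ} {F : Fam m J} {c : ℕ → Fin m}
    {Dr M s s₁ e E h N W g₃ gS Lx : ℕ} {κ : ℝ} {Rl : ℕ → ℕ → Prop} {a w A ι σ q' : ℕ → ℕ}
    {g : ℕ → ℕ → ℕ} {B₀ B : F.Ω → Prop} {G : ℕ → PtT F → ℕ → MvPolynomial (Option (Fin m)) ℝ}
    {H : ℕ → LnT F → ℕ → MvPolynomial (Option (Fin m)) ℝ}
    {P' : ℕ → PtT F → MvPolynomial (Option (Fin m)) ℝ}
    {R' : ℕ → LnT F → MvPolynomial (Option (Fin m)) ℝ}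
    {Gx : PtT F → MvPolynomial (Option (Fin m)) ℝ} {Gl : LnT F → MvPolynomial (Option (Fin m)) ℝ},
    Set.InjOn c (Set.Iio 3) → 0 < κ → 0 < Pe F.p B₀ → Sub B B₀ → D ≤ Dr →
    Nls F c 3 D Dr M s Rl a w e E g h κ B₀ G H →
    (∀ k ≤ N, ι k < M ∧ a (ι k) = A k ∧ w (ι k) = A k) → σ N < M → a (σ N) = A N → w (σ N) = W →
    (∀ k ≤ N, A k ≤ J) → (∀ k ≤ N, W ≤ A k) →
    (∀ k < N, Rl (ι k) (ι (k + 1))) → Rl (σ N) (ι N) →
    NsN s₁ b N W g₃ gS Lx A ι σ q' g →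
    (∀ k ≤ N, Tgt F c 3 D (A k) (A k) (q' k) (g (ι k)) B (G (ι k)) (fun ω => F.x ω (c 3))
      (P' k) (R' k)) →
    (∀ y, (Gx y).totalDegree ≤ D) → (∀ S, (Gl S).totalDegree ≤ D) →
    (∀ y, DepC c 3 (Gx y)) → (∀ S, DepC c 3 (Gl S)) →
    (∀ ω, B ω → Gx (ptr F J ω) = Gl (slam F W ω)) →
    (∀ k ≤ N, ∀ ω, B ω →
      |eval (bt F ω) (pderiv (some (c 2)) (P' k (ptr F J ω) - Gx (ptr F J ω)))| ≤
        2 ^ (s₁ + g (ι k) 2) / 2 ^ (g₃ + b * (A k - W))) →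
    ∃ B' : F.Ω → Prop, Sub B' B ∧
      Pe F.p B ≤ Pe F.p B' + (N + 1 : ℕ) * (2 * (κ * 2 ^ 4 * Pe F.p B₀)) ∧
      ∀ (B'' : F.Ω → Prop) (s₂ : ℕ), Sub B'' B' → (∀ ω, B'' ω → ∀ b',
        NBx c (G (σ N) (ptr F J ω)) (g (σ N)) (A N) (F.t ω) 3 b' →
        |eval b' (pderiv (some (c 2)) (H (σ N) (slam F W ω) 3 - Gl (slam F W ω)))| ≤
          2 ^ (s₂ + g (σ N) 2) / 2 ^ gS) →
      Nsu F c D N W (C * (h + s + s₁ + 1) + s₂) b g₃ gS Lx A (fun k => g (ι k)) B'' (fun k => G (ι k))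
        (fun k y => G (ι k) y 3) (fun k S => H (ι k) S 3) (fun S => H (σ N) S 3)
        (fun S => H (σ N) S 2) Gx Gl (g (σ N)) (G (σ N)) (fun ω => F.x ω (c 3)) := by
  obtain ⟨C₁, hbl⟩ := bl_one D 4 hD
  refine ⟨C₁ + 1, ?_⟩
  intro m J F c Dr M s s₁ e E h N W g₃ gS Lx κ Rl a w A ι σ q' g B₀ B G H P' R' Gx Gl hc hκ hP₀ hB hDr X hι hσ
    hσa hσw hAJ hWA hRι hRσ n hT d1 d2 d3 d4 hG hbs
  have pw : ∀ {x y : ℕ}, x ≤ y → (2 : ℝ) ^ x ≤ 2 ^ y := fun h => pow_le_pow_right₀ (by norm_num) h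
  have dv : ∀ {α : ℝ} {p q r t : ℕ}, α ≤ 2 ^ p / 2 ^ q → p + t ≤ r + q → α ≤ 2 ^ r / 2 ^ t := by
    intro α p q r t h1 h2
    refine h1.trans ?_
    rw [div_le_div_iff₀ (by positivity) (by positivity), ← pow_add, ← pow_add]
    exact pw h2
  have hbl' : ∀ k ≤ N, ∀ B', Sub B' B → ∃ B'', Sub B'' B' ∧
      Pe F.p B' ≤ Pe F.p B'' + 2 * (κ * 2 ^ 4 * Pe F.p B₀) ∧ ∀ ω, B'' ω → ∀ b',
      NBx c (G (ι k) (ptr F J ω)) (g (ι k)) (A k) (F.t ω) 3 b' →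
      |eval b' (pderiv (some (c 2)) (G (ι k) (ptr F J ω) 3 - Gx (ptr F J ω)))| ≤
        2 ^ (C₁ * (h + 1)) * (2 ^ (s₁ + g (ι k) 2) / 2 ^ (g₃ + b * (A k - W))) := by
    intro k hk B' hB'
    obtain ⟨h1, h2, h3⟩ := hι k hk
    have nd := X.nod (ι k) h1
    rw [h2, h3] at nd
    have hsub : Sub B' B₀ := fun ω hω => hB ω (hB' ω hω)
    have gm1 : (2 : ℝ) ^ g (ι k) 2 / 2 ^ g (ι k) 3 ≤
        2 ^ (s₁ + g (ι k) 2) / 2 ^ (g₃ + b * (A k - W)) :=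
      dv le_rfl (by have := n.lv k hk; omega)
    have gm2 : (2 : ℝ) ^ g (ι k) 2 / 2 ^ q' k ≤
        2 ^ (s₁ + g (ι k) 2) / 2 ^ (g₃ + b * (A k - W)) :=
      dv le_rfl (by have := n.lq k hk; omega)
    obtain ⟨B'', k1, k2, k3⟩ := hbl (F := F) (c := c) (i := 2) (a := A k) (w := A k)
      (e := e) (h := h) (q := g (ι k) 3) (q' := q' k) (κ := κ)
      (M := 2 ^ (s₁ + g (ι k) 2) / 2 ^ (g₃ + b * (A k - W)))
      (g := g (ι k)) (B₀ := B₀) (B := B') (G := G (ι k)) (H := H (ι k))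
      (y := fun ω => F.x ω (c 3)) (P := fun y => G (ι k) y 3) (P' := P' k)
      (R := fun S => H (ι k) S 3) (R' := R' k) (Gx := Gx)
      (Gl := fun S => Gl (cos F W (A k) S)) (by norm_num) hc hκ hP₀ hsub
      (nd.rlF.mono hDr le_rfl) (nd.lst.sub hsub) (tgt_of (nd.top.sub hsub))
      ((hT k hk).sub hB') d1 (fun S => d2 _) d3 (fun S => d4 _) (fun ω hω => by
        show Gx (ptr F J ω) = Gl (cos F W (A k) (slam F (A k) ω))
        rw [cos_slam F (hWA k hk) (hAJ k hk)]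
        exact hG ω (hB' ω hω)) (by positivity) gm1 gm2
      (fun ω hω => by
        rw [dir_ek]
        exact hbs k hk ω (hB' ω hω))
    refine ⟨B'', k1, k2, fun ω hω b' hb => ?_⟩
    have h4 := (k3 ω hω b' hb).1
    rw [dir_ek] at h4
    exact h4
  obtain ⟨B', k1, k2, k3⟩ := add_ev (p := F.p) B (N + 1) (x := 2 * (κ * 2 ^ 4 * Pe F.p B₀))
    (fun k B' => ∀ ω, B' ω → ∀ b',
      NBx c (G (ι k) (ptr F J ω)) (g (ι k)) (A k) (F.t ω) 3 b' →
      |eval b' (pderiv (some (c 2)) (G (ι k) (ptr F J ω) 3 - Gx (ptr F J ω)))| ≤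
        2 ^ (C₁ * (h + 1)) * (2 ^ (s₁ + g (ι k) 2) / 2 ^ (g₃ + b * (A k - W))))
    (fun i B₁ B₂ hB h ω hω => h ω (hB ω hω)) (fun i hi B' hB' => hbl' i (by omega) B' hB')
  refine ⟨B', k1, k2, fun B'' s₂ hB'' hmx => ?_⟩
  have hs : Sub B'' B₀ := fun ω hω => hB ω (k1 ω (hB'' ω hω))
  obtain ⟨S, hS⟩ : ∃ S, S = (C₁ + 1) * (h + s + s₁ + 1) + s₂ := ⟨_, rfl⟩
  rw [← hS]
  have hS1 : s + s₁ ≤ S := by
    rw [hS]
    nlinarith [Nat.zero_le (C₁ * (h + s + s₁ + 1))]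
  have hS2 : C₁ * (h + 1) + s₁ ≤ S := by
    rw [hS]
    nlinarith [Nat.zero_le (C₁ * (s + s₁))]
  have hS3 : s₂ ≤ S := by omega
  have ndN := X.nod (σ N) hσ
  rw [hσa, hσw] at ndN
  have nd : ∀ k ≤ N, NodW F c 3 D Dr (A k) (A k) e E (g (ι k)) h κ B₀ (G (ι k)) (H (ι k)) := by
    intro k hk
    obtain ⟨h1, h2, h3⟩ := hι k hk
    have nd := X.nod (ι k) h1
    rwa [h2, h3] at nd
  have hιN := hι N le_rfl
  exact
    { dP := fun k hk y => (nd k hk).top.degG y 3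
      dH := fun k hk S => (nd k hk).top.degH S 3
      dS := fun S => ndN.top.degH S 3
      dU := fun S => ndN.top.degH S 2
      dx := d1
      dl := d2
      eP := fun k hk y => (nd k hk).top.depG y 3
      eH := fun k hk S => (nd k hk).top.depH S 3
      eS := fun S => ndN.top.depH S 3
      eU := fun S => ndN.top.depH S 2
      ex := d3
      el := d4
      gc := fun ω hω => hG ω (k1 ω (hB'' ω hω))
      pos := fun k hk ω hω => by
        have h1 := (nd k hk).top.pos ω (hs ω hω) 3 (by norm_num)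
        rw [← pow_zero 2] at h1
        exact dv h1 (by have := n.lv k hk; omega)
      agr := fun k hk ω hω b' hb => by
        have h1 := (nd k hk).top.agr ω (hs ω hω) 3 (by norm_num) b' hb
        rw [← pow_zero 2] at h1
        exact dv h1 (by have := n.lv k hk; omega)
      uni := fun k hk ω hω b' hb => by
        have h1 := X.uni (ι k) (hι k hk.le).1 (ι (k + 1)) (hι (k + 1) hk).1 (hRι k hk) ω
          (hs ω hω) 3 le_rfl b' (by rw [(hι (k + 1) hk).2.1]; exact hb)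
        exact dv h1 (by have := n.lv k hk.le; omega)
      bl := fun k hk ω hω b' hb => by
        refine (k3 k (by omega) ω (hB'' ω hω) b' hb).trans ?_
        rw [mul_div_assoc', ← pow_add]
        exact div_le_div_of_nonneg_right (pw (by omega)) (by positivity)
      sta := fun ω hω b' hb => by
        have h1 := X.two (σ N) hσ (ι N) hιN.1 hRσ ω (hs ω hω) 3 le_rfl b'
          (by rw [hιN.2.1]; exact hb)
        rw [hσw] at h1
        exact dv h1 (by have := n.ls; omega)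
      gS0 := n.gS0
      dGs := fun y l => ndN.top.degG y l
      eGs := fun y l => ndN.top.depG y l
      gsn := fun l hl => (n.gsn l hl).trans (by omega)
      nr := fun l hl ω hω b' hb => by
        have h1 := X.uni (σ N) hσ (ι N) hιN.1 hRσ ω (hs ω hω) l (by omega) b'
          (by rw [hιN.2.1]; exact hb)
        exact dv h1 (by omega)
      us := fun ω hω b' hb => by
        have h1 := X.two (σ N) hσ (ι N) hιN.1 hRσ ω (hs ω hω) 2 (by norm_num) b'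
          (by rw [hιN.2.1]; exact hb)
        rw [hσw] at h1
        exact dv h1 (by omega)
      mx := fun ω hω b' hb => dv (hmx ω hω b' hb) (by omega)
      gm := fun k hk l hl => (n.gm k hk l hl).trans (by omega) }

/-- A larger loss. -/
theorem nsu_mono {F : Fam m J} {c : ℕ → Fin m} {D N W s s' b g₃ gS Lx : ℕ} {A : ℕ → ℕ}
    {g : ℕ → ℕ → ℕ} {B : F.Ω → Prop} {G : ℕ → PtT F → ℕ → MvPolynomial (Option (Fin m)) ℝ}
    {LP : ℕ → PtT F → MvPolynomial (Option (Fin m)) ℝ}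
    {LH : ℕ → LnT F → MvPolynomial (Option (Fin m)) ℝ}
    {HS US : LnT F → MvPolynomial (Option (Fin m)) ℝ}
    {Gx : PtT F → MvPolynomial (Option (Fin m)) ℝ} {Gl : LnT F → MvPolynomial (Option (Fin m)) ℝ}
    {gs : ℕ → ℕ} {Gs : PtT F → ℕ → MvPolynomial (Option (Fin m)) ℝ} {yN : F.Ω → ℝ}
    (T : Nsu F c D N W s b g₃ gS Lx A g B G LP LH HS US Gx Gl gs Gs yN) (h : s ≤ s') :
    Nsu F c D N W s' b g₃ gS Lx A g B G LP LH HS US Gx Gl gs Gs yN := by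
  have pw : ∀ {x y : ℕ}, x ≤ y → (2 : ℝ) ^ x ≤ 2 ^ y := fun h => pow_le_pow_right₀ (by norm_num) h
  have dv : ∀ {α : ℝ} {p q t : ℕ}, α ≤ 2 ^ p / 2 ^ t → p ≤ q → α ≤ 2 ^ q / 2 ^ t :=
    fun h1 h2 => h1.trans (div_le_div_of_nonneg_right (pw h2) (by positivity))
  exact { T with
    pos := fun k hk ω hω => dv (T.pos k hk ω hω) h
    agr := fun k hk ω hω b' hb => dv (T.agr k hk ω hω b' hb) h
    uni := fun k hk ω hω b' hb => dv (T.uni k hk ω hω b' hb) h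
    bl := fun k hk ω hω b' hb => dv (T.bl k hk ω hω b' hb) (by omega)
    sta := fun ω hω b' hb => dv (T.sta ω hω b' hb) h
    gsn := fun l hl => (T.gsn l hl).trans (by omega)
    nr := fun l hl ω hω b' hb => dv (T.nr l hl ω hω b' hb) h
    us := fun ω hω b' hb => dv (T.us ω hω b' hb) h
    mx := fun ω hω b' hb => dv (T.mx ω hω b' hb) (by omega)
    gm := fun k hk l hl => (T.gm k hk l hl).trans (by omega) }

/-- **The static target from a list of nodes**: the mixed derivative is natural by the chain of the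
static nodes up to a last ball. -/
theorem nsu_of (D b : ℕ) (hD : 1 ≤ D) : ∃ C : ℕ, ∀ {m J : ℕ} {F : Fam m J} {c : ℕ → Fin m}
    {Dr M s s₁ e E h N Nm W g₃ gS Lx : ℕ} {κ : ℝ} {Rl : ℕ → ℕ → Prop} {a w A ι σ q' : ℕ → ℕ}
    {g : ℕ → ℕ → ℕ} {B₀ B : F.Ω → Prop} {G : ℕ → PtT F → ℕ → MvPolynomial (Option (Fin m)) ℝ}
    {H : ℕ → LnT F → ℕ → MvPolynomial (Option (Fin m)) ℝ}
    {P' : ℕ → PtT F → MvPolynomial (Option (Fin m)) ℝ}
    {R' : ℕ → LnT F → MvPolynomial (Option (Fin m)) ℝ}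
    {Gx : PtT F → MvPolynomial (Option (Fin m)) ℝ} {Gl : LnT F → MvPolynomial (Option (Fin m)) ℝ},
    Set.InjOn c (Set.Iio 3) → 0 < κ → 0 < Pe F.p B₀ → Sub B B₀ → D ≤ Dr →
    Nls F c 3 D Dr M s Rl a w e E g h κ B₀ G H → N ≤ Nm →
    (∀ k ≤ Nm, ι k < M ∧ a (ι k) = A k ∧ w (ι k) = A k) →
    (∀ k, N ≤ k → k ≤ Nm → σ k < M ∧ a (σ k) = A k ∧ w (σ k) = W) →
    (∀ k ≤ Nm, A k ≤ J) → (∀ k ≤ Nm, W ≤ A k) → (∀ k < Nm, A k ≤ A (k + 1)) →
    (∀ k < N, Rl (ι k) (ι (k + 1))) → Rl (σ N) (ι N) → Rl (σ Nm) (ι Nm) →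
    NsN s₁ b N W g₃ gS Lx A ι σ q' g → NsC C s s₁ N Nm gS ι σ q' g →
    (∀ k ≤ Nm, Tgt F c 3 D (A k) (A k) (q' k) (g (ι k)) B (G (ι k)) (fun ω => F.x ω (c 3))
      (P' k) (R' k)) →
    (∀ y, (Gx y).totalDegree ≤ D) → (∀ S, (Gl S).totalDegree ≤ D) →
    (∀ y, DepC c 3 (Gx y)) → (∀ S, DepC c 3 (Gl S)) →
    (∀ ω, B ω → Gx (ptr F J ω) = Gl (slam F W ω)) →
    (∀ k ≤ N, ∀ ω, B ω →
      |eval (bt F ω) (pderiv (some (c 2)) (P' k (ptr F J ω) - Gx (ptr F J ω)))| ≤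
        2 ^ (s₁ + g (ι k) 2) / 2 ^ (g₃ + b * (A k - W))) →
    (∀ ω, B ω →
      |eval (bt F ω) (pderiv (some (c 2)) (P' Nm (ptr F J ω) - Gx (ptr F J ω)))| ≤
        2 ^ (s₁ + g (σ N) 2) / 2 ^ gS) →
    ∃ B' : F.Ω → Prop, Sub B' B ∧
      Pe F.p B ≤ Pe F.p B' + (2 * N + Nm + 4 : ℕ) * (κ * 2 ^ 4 * Pe F.p B₀) ∧
      Nsu F c D N W (C * (h + s + s₁ + 1) + Nm) b g₃ gS Lx A (fun k => g (ι k)) B' (fun k => G (ι k))
        (fun k y => G (ι k) y 3) (fun k S => H (ι k) S 3) (fun S => H (σ N) S 3)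
        (fun S => H (σ N) S 2) Gx Gl (g (σ N)) (G (σ N)) (fun ω => F.x ω (c 3)) := by
  obtain ⟨C₁, hpre⟩ := nsu_pre D b hD
  obtain ⟨C₂, hmx⟩ := mx_node D 4 hD
  refine ⟨C₁ + C₂ + 1, ?_⟩
  intro m J F c Dr M s s₁ e E h N Nm W g₃ gS Lx κ Rl a w A ι σ q' g B₀ B G H P' R' Gx Gl hc hκ hP₀ hB hDr
    X hNm hι hσ hAJ hWA hAm hRι hRσ hRm n nc hT d1 d2 d3 d4 hG hbs hbm
  have pw : ∀ {x y : ℕ}, x ≤ y → (2 : ℝ) ^ x ≤ 2 ^ y := fun h => pow_le_pow_right₀ (by norm_num) h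
  have dv : ∀ {α : ℝ} {p q r t : ℕ}, α ≤ 2 ^ p / 2 ^ q → p + t ≤ r + q → α ≤ 2 ^ r / 2 ^ t := by
    intro α p q r t h1 h2
    refine h1.trans ?_
    rw [div_le_div_iff₀ (by positivity) (by positivity), ← pow_add, ← pow_add]
    exact pw h2
  have hp := Pe_nonneg F.isLaw
  obtain ⟨x, hx⟩ : ∃ x : ℝ, x = κ * 2 ^ 4 * Pe F.p B₀ := ⟨_, rfl⟩
  have hx0 : 0 ≤ x := by rw [hx]; positivity
  obtain ⟨B₁, k1, k2, k3⟩ := hpre hc hκ hP₀ hB hDr X (fun k hk => hι k (hk.trans hNm))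
    (hσ N le_rfl hNm).1 (hσ N le_rfl hNm).2.1 (hσ N le_rfl hNm).2.2
    (fun k hk => hAJ k (hk.trans hNm)) (fun k hk => hWA k (hk.trans hNm)) hRι hRσ n
    (fun k hk => hT k (hk.trans hNm)) d1 d2 d3 d4 hG hbs
  have hs : Sub B₁ B₀ := fun ω hω => hB ω (k1 ω hω)
  obtain ⟨n', hn'⟩ : ∃ n', n' = Nm - N := ⟨_, rfl⟩
  have hNn : N + n' = Nm := by omega
  have nds : ∀ k ≤ n', NodW F c 3 D Dr (A (N + k)) W e E (g (σ (N + k))) h κ B₀ (G (σ (N + k)))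
      (H (σ (N + k))) := by
    intro k hk
    obtain ⟨h1, h2, h3⟩ := hσ (N + k) (by omega) (by omega)
    have nd := X.nod _ h1
    rwa [h2, h3] at nd
  obtain ⟨i1, i2, i3⟩ := hι Nm le_rfl
  have ndi := X.nod _ i1
  rw [i2, i3] at ndi
  obtain ⟨M', hM'⟩ : ∃ M' : ℝ, M' = 2 ^ (s₁ + g (σ N) 2) / 2 ^ gS := ⟨_, rfl⟩
  have hM'0 : 0 < M' := by rw [hM']; positivity
  have hC₂ : C₂ * (s + s₁ + 1) ≤ (C₁ + C₂ + 1) * (s + s₁ + 1) := Nat.mul_le_mul_right _ (by omega)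
  obtain ⟨B₂, l1, l2, l3⟩ := hmx (F := F) (c := c) (i := 2) (w := W) (e := e) (h := h)
    (s := s + s₁) (κ := κ) (M := M') n' (a := fun k => A (N + k)) (q := fun k => g (σ (N + k)) 3)
    (g := fun k => g (σ (N + k))) (B₀ := B₀) (B := B₁) (G := fun k => G (σ (N + k)))
    (H := fun k => H (σ (N + k))) (y := fun ω => F.x ω (c 3))
    (P := fun k y => G (σ (N + k)) y 3) (R := fun k S => H (σ (N + k)) S 3) (a' := A Nm)
    (w' := A Nm) (e' := e) (q' := q' Nm) (g' := g (ι Nm)) (G' := G (ι Nm)) (H' := H (ι Nm))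
    (P' := P' Nm) (R' := R' Nm) (Gx := Gx) (Gl := Gl) (by norm_num) hc hκ hP₀ hs
    (fun k hk => hAm (N + k) (by omega)) (fun k hk => (nds k hk).rlF.mono hDr le_rfl)
    (fun k hk => (nds k hk).lst.sub hs) (fun k hk => tgt_of ((nds k hk).top.sub hs))
    (by show A (N + n') ≤ _; rw [hNn]) (hWA Nm le_rfl) (hAJ Nm le_rfl)
    (ndi.rlF.mono hDr le_rfl) (ndi.lst.sub hs) (fun l hl => by
      show g (σ (N + n')) l ≤ _
      rw [hNn]
      have := nc.gl l hl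
      omega) (fun l hl ω hω b' hb => by
      show |_ - eval b' (G (σ (N + n')) (ptr F J ω) l)| ≤ 2 ^ (s + s₁) / 2 ^ g (σ (N + n')) l
      rw [hNn]
      have h1 := X.uni (σ Nm) (hσ Nm hNm le_rfl).1 (ι Nm) i1 hRm ω (hs ω hω) l (by omega) b'
        (by rw [i2]; exact hb)
      exact dv h1 (by omega)) ((hT Nm le_rfl).sub k1) d1 d2 d3 d4
    (fun ω hω => hG ω (k1 ω hω)) hM'0 (fun k hk => by
      rw [hM']
      have := nc.c1 (N + k) (by omega) (by omega)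
      exact dv le_rfl (by
        show g (σ (N + k + 1)) 2 + _ ≤ _ + g (σ (N + k)) 3
        omega)) (fun k hk => by
      rw [hM']
      have := nc.c2 (N + k) (by omega) (by omega)
      exact dv le_rfl (by
        show g (σ (N + k)) 2 + _ ≤ _ + g (σ (N + k)) 3
        omega)) (by
      show _ ≤ g (σ (N + n')) 3
      rw [hNn]
      exact hC₂.trans nc.c3) (by
      show (2 : ℝ) ^ (g (ι Nm) 2 + C₂ * (s + s₁ + 1)) / 2 ^ g (σ (N + n')) 3 ≤ M'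
      rw [hNn, hM']
      have := nc.c4
      exact dv le_rfl (by omega)) (by
      rw [hM']
      have := nc.c5
      exact dv le_rfl (by omega)) (fun ω hω => by
      rw [dir_ek, hM']
      exact hbm ω (k1 ω hω))
  have hres := k3 B₂ (Nm + (C₂ * (h + 1) + s₁)) l1 fun ω hω b' hb => by
    have h1 := (l3 ω hω b' hb).2
    rw [dir_ek] at h1
    refine h1.trans ?_
    rw [hM', mul_div_assoc']
    refine div_le_div_of_nonneg_right ?_ (by positivity)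
    have h2 : ((n' : ℝ) + 1) ≤ 2 ^ Nm := by
      have h3 : n' + 1 ≤ 2 ^ Nm := by
        have h4 : n' + 1 ≤ Nm + 1 := by omega
        exact h4.trans (Nat.lt_two_pow_self (n := Nm))
      exact_mod_cast h3
    calc ((n' : ℝ) + 1) * 2 ^ (C₂ * (h + 1)) * 2 ^ (s₁ + g (σ N) 2) ≤
        2 ^ Nm * 2 ^ (C₂ * (h + 1)) * 2 ^ (s₁ + g (σ N) 2) := by gcongr
      _ = 2 ^ (Nm + (C₂ * (h + 1) + s₁) + g (σ N) 2) := by
        rw [← pow_add, ← pow_add]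
        congr 1
        omega
  refine ⟨B₂, fun ω hω => k1 ω (l1 ω hω), ?_, ?_⟩
  · rw [← hx] at k2 l2 ⊢
    have h1 : (n' : ℝ) ≤ Nm := by exact_mod_cast (show n' ≤ Nm by omega)
    have h2 : ((n' : ℝ) + 2) * x ≤ (Nm + 2) * x := by
      refine mul_le_mul_of_nonneg_right (by linarith) hx0
    push_cast at k2 ⊢
    linarith
  · have e1 : C₁ * (h + s + s₁ + 1) + (Nm + (C₂ * (h + 1) + s₁)) ≤
        (C₁ + C₂ + 1) * (h + s + s₁ + 1) + Nm := by nlinarith [Nat.zero_le (C₂ * (s + s₁))]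
    exact nsu_mono hres e1


end Pool.STB65.Ls
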