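import Pool.Agent.H65.STB.Ncl
import Pool.Agent.H65.STL.Nfl

/-!
# The input of the jets for a static target with a loss, in a class

`n1_clsL`: the class theorem, as `n1_cls`, the mixed derivative of the static label with a loss
`lam`; the output is `N1L`.
-/

set_option autoImplicit false

namespace Pool.STB65.Ls

open Finset Real MvPolynomial
open Pool.Agent.H49.Ent Pool.Agent.H32.Dense Pool.STK Pool.KA Pool.KSAT Pool.K2S Pool.PB Pool.S6C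
open Pool.GEN Pool.CHT Pool.NVX
open Pool.STB (V3 Po Bx InpL N1L)
open Pool.GRD (LbP)
open Pool.ALT (Fml BlB)
open Pool.BFL (Pb)
open Pool.LA91 (Pb_cond)
open Pool.STB77 (Inc Tgt Nls NodW NodF tgt_of cos cos_slam opt vnr inc_cls bas_lrg)
open Pool.STB82 (yv)
open Pool.Z3 (share_ex)

variable {m : ℕ}

/-- Smaller events. -/
theorem n1l_sub {J : ℕ} {F : Fam m J} {c : ℕ → Fin m} {D K b N W s v y e X g₃ gS Lx : ℕ}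
    {A ee : ℕ → ℕ} {g : ℕ → ℕ → ℕ} {B B' : F.Ω → Prop}
    {G : ℕ → PtT F → ℕ → MvPolynomial (Option (Fin m)) ℝ}
    {H : ℕ → LnT F → ℕ → MvPolynomial (Option (Fin m)) ℝ}
    {pP : PtT F → ℕ → MvPolynomial (Option (Fin m)) ℝ}
    {pH : LnT F → ℕ → MvPolynomial (Option (Fin m)) ℝ} {xP : PtT F → ℝ} {xH : LnT F → ℝ}
    {Gx zP : PtT F → MvPolynomial (Option (Fin m)) ℝ}
    {zH : LnT F → MvPolynomial (Option (Fin m)) ℝ} {f : ℕ → PtT F → Po} {f' : ℕ → LnT F → Po}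
    {kf : LnT F → Po}
    (h : N1L F c D K b N W s v y e X g₃ gS Lx A ee g B G H pP pH xP xH Gx zP zH f f' kf)
    (hB : Sub B' B) :
    N1L F c D K b N W s v y e X g₃ gS Lx A ee g B' G H pP pH xP xH Gx zP zH f f' kf :=
  { h with
    inc := inc_less h.inc hB
    xc := fun ω hω => h.xc ω (hB ω hω)
    xn := fun ω hω => h.xn ω (hB ω hω)
    pg := fun ω hω => h.pg ω (hB ω hω)
    zc := fun ω hω => h.zc ω (hB ω hω)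
    inp := h.inp.sub hB
    val := fun k hk ω hω => h.val k hk ω (hB ω hω)
    gT := fun k hk ω hω => h.gT k hk ω (hB ω hω)
    gz := fun ω hω => h.gz ω (hB ω hω)
    near := fun ω hω => h.near ω (hB ω hω) }

/-- Larger numbers. -/
theorem n1l_up {J : ℕ} {F : Fam m J} {c : ℕ → Fin m} {D K b N W s v y y' e X X' g₃ gS Lx : ℕ}
    {A ee : ℕ → ℕ} {g : ℕ → ℕ → ℕ} {B : F.Ω → Prop}
    {G : ℕ → PtT F → ℕ → MvPolynomial (Option (Fin m)) ℝ}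
    {H : ℕ → LnT F → ℕ → MvPolynomial (Option (Fin m)) ℝ}
    {pP : PtT F → ℕ → MvPolynomial (Option (Fin m)) ℝ}
    {pH : LnT F → ℕ → MvPolynomial (Option (Fin m)) ℝ} {xP : PtT F → ℝ} {xH : LnT F → ℝ}
    {Gx zP : PtT F → MvPolynomial (Option (Fin m)) ℝ}
    {zH : LnT F → MvPolynomial (Option (Fin m)) ℝ} {f : ℕ → PtT F → Po} {f' : ℕ → LnT F → Po}
    {kf : LnT F → Po}
    (h : N1L F c D K b N W s v y e X g₃ gS Lx A ee g B G H pP pH xP xH Gx zP zH f f' kf)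
    (hy : y ≤ y') (hX : X ≤ X') :
    N1L F c D K b N W s v y' e X' g₃ gS Lx A ee g B G H pP pH xP xH Gx zP zH f f' kf := by
  have pw : ∀ {x y : ℕ}, x ≤ y → (2 : ℝ) ^ x ≤ 2 ^ y := fun h => pow_le_pow_right₀ (by norm_num) h
  exact { h with
    inp := inpl_up h.inp (pw hy)
    val := fun k hk ω hω => (h.val k hk ω hω).trans
      (mul_le_mul_of_nonneg_right (pw hy) (by positivity))
    gT := fun k hk ω hω b' hb l hl => (h.gT k hk ω hω b' hb l hl).trans (pw (by omega))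
    gz := fun ω hω b' hb hb' l hl => (h.gz ω hω b' hb hb' l hl).trans (pw (by omega))
    near := fun ω hω r hr => (h.near ω hω r hr).trans
      (mul_le_mul_of_nonneg_right (pw (by omega)) (by positivity)) }

/-- **The output on one event.** -/
theorem n1_last (D b : ℕ) (hD : 1 ≤ D) : ∃ C K D' : ℕ, D ≤ D' ∧ ∀ {m J : ℕ} {F : Fam m J}
    {c : ℕ → Fin m} {Dr e E h N W s v x pN g₃ gS gS' Lx : ℕ} {κ : ℝ} {A ee : ℕ → ℕ} {g : ℕ → ℕ → ℕ}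
    {B₀ B : F.Ω → Prop} {G : ℕ → PtT F → ℕ → MvPolynomial (Option (Fin m)) ℝ}
    {H : ℕ → LnT F → ℕ → MvPolynomial (Option (Fin m)) ℝ}
    {pP : PtT F → ℕ → MvPolynomial (Option (Fin m)) ℝ}
    {pH : LnT F → ℕ → MvPolynomial (Option (Fin m)) ℝ} {xP : PtT F → ℝ} {xH : LnT F → ℝ}
    {HS US : LnT F → MvPolynomial (Option (Fin m)) ℝ}
    {Gx : PtT F → MvPolynomial (Option (Fin m)) ℝ} {Gl : LnT F → MvPolynomial (Option (Fin m)) ℝ}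
    {gs : ℕ → ℕ} {Gs : PtT F → ℕ → MvPolynomial (Option (Fin m)) ℝ},
    gS ≤ gS' + Lx → 0 < κ → 0 < Pe F.p B₀ → Sub B B₀ → D ≤ Dr →
    Inc F c D N W s v A ee g B G H pP pH → N ≤ s → W ≤ g 0 0 + s → g 0 1 + s + e + 1 ≤ J →
    (∀ S l, DepC c l (pH S l)) → (∀ ω, B ω → xP (ptr F J ω) = xH (slam F W ω)) →
    (∀ ω, B ω → |xP (ptr F J ω) - 2 ^ W * F.x ω (c 0)| ≤ 2 ^ s) →
    (∀ ω, B ω → ∀ b : Option (Fin m) → ℝ, |b none - F.t ω| ≤ 1 / 2 ^ W →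
      |b (some (c 0)) - F.x ω (c 0)| ≤ 1 / 2 ^ W →
      |eval b (pderiv (some (c 0)) (pP (ptr F J ω) 1))| ≤ 2 ^ (s + e)) →
    NodW F c 3 D Dr (A 0) (A 0) e E (g 0) h κ B₀ (G 0) (H 0) →
    Nsu F c D N W s b g₃ gS' Lx A g B G (fun k y => G k y 3) (fun k S => H k S 3) HS US Gx Gl gs Gs
      (fun ω => F.x ω (c 3)) →
    (∀ ω, B ω → |F.x ω (c 3) - eval (bt F ω) (Gx (ptr F J ω))| ≤ 1 / 2 ^ pN) → g₃ ≤ pN + x →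
    g₃ ≤ g 0 3 + s →
    (∀ k ≤ N, ∀ ω, B ω → ∀ l < 3, ∀ b,
      NBx c (G k (ptr F J ω)) (g k) (A k) (F.t ω) l b →
      |eval b (G k (ptr F J ω) l) - eval b (G 0 (ptr F J ω) l)| ≤ 2 ^ s / 2 ^ g 0 l) →
    (∀ k ≤ N, ∀ l < 3, g 0 l ≤ g k l + s) →
    ∃ (B' : F.Ω → Prop) (zP : PtT F → MvPolynomial (Option (Fin m)) ℝ)
      (zH : LnT F → MvPolynomial (Option (Fin m)) ℝ) (f : ℕ → PtT F → Po) (f' : ℕ → LnT F → Po)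
      (kf : LnT F → Po), Sub B' B ∧ 3 / 4 * Pe F.p B ≤ Pe F.p B' + κ * 2 ^ 4 * Pe F.p B₀ ∧
      N1L F c D' K b N W s v (C * (h + s + v + 1)) e (C * (h + s + v + 1) + max e E + x) g₃ gS Lx A ee g
        B' G H pP pH xP xH Gx zP zH f f' kf := by
  obtain ⟨C, K, D₂, hfam⟩ := n1_fam D b hD
  refine ⟨C, K, max D D₂, le_max_left _ _, ?_⟩
  intro m J F c Dr e E h N W s v x pN g₃ gS gS' Lx κ A ee g B₀ B G H pP pH xP xH HS US Gx Gl gs Gs hgL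
    hκ hP₀ hB
    hDr I hNs hWg hgJ hpH hxc hxn hpg nd T hpos hgx hg3 hu hgm
  have pw : ∀ {x y : ℕ}, x ≤ y → (2 : ℝ) ^ x ≤ 2 ^ y := fun h => pow_le_pow_right₀ (by norm_num) h
  obtain ⟨B', zP, zH, f, f', kf, a1, a2, a3, a4, a5, a6, a7, a8, a9, a10, a11, a12⟩ :=
    hfam hκ hP₀ hB hDr I hNs hWg hgJ hpH hxc hxn hpg nd T hpos hgx hg3 hu hgm
  have k1 : C * (s + v + 1) ≤ C * (h + s + v + 1) := Nat.mul_le_mul_left _ (by omega)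
  have k2 : C * (h + s + 1) ≤ C * (h + s + v + 1) := Nat.mul_le_mul_left _ (by omega)
  exact ⟨B', zP, zH, f, f', kf, a1, a2,
    { inc := inc_less (inc_mono I (le_max_left _ _) le_rfl) a1
      Ns := hNs
      n0' := hWg
      hp := hpH
      xc := fun ω hω => hxc ω (a1 ω hω)
      xn := fun ω hω => hxn ω (a1 ω hω)
      pg := fun ω hω => hpg ω (a1 ω hω)
      zd := fun y => (a3 y).trans (le_max_right _ _)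
      zd' := fun S => (a4 S).trans (le_max_right _ _)
      ze := a5
      ze' := a6
      zc := a7
      inp := inpl_up a8 (pw k1)
      val := fun k hk ω hω => (a9 k hk ω hω).trans
        (mul_le_mul_of_nonneg_right (pw k1) (by positivity))
      gT := fun k hk ω hω b' hb l hl => (a10 k hk ω hω b' hb l hl).trans (pw (by omega))
      gz := fun ω hω b' hb hb' l hl => (a11 ω hω b' hb hb' l hl).trans (pw (by omega))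
      near := fun ω hω r hr => (a12 ω hω r hr).trans (by
        rw [mul_div_assoc', mul_div_assoc', div_le_div_iff₀ (by positivity) (by positivity),
          ← pow_add, ← pow_add, ← pow_add, ← pow_add]
        exact pw (by omega)) }⟩

/-! ### The numbers -/

section

variable {b N M J : ℕ} {γ lam : ℝ} {β : ℕ → ℝ → ℝ → ℝ} {AA WW : ℕ → ℝ} {ι σ : ℕ → ℕ}
  {d : ℕ → ℕ → ℝ} {p x : ℕ → ℝ} {q' : ℕ → ℕ} {s s₀ : ℝ}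

/-- The precision of the static label at the last ball, with a loss. -/
noncomputable def gSL (b N J : ℕ) (γ lam : ℝ) (β : ℕ → ℝ → ℝ → ℝ) (AA WW : ℕ → ℝ) (ι : ℕ → ℕ)
    (d : ℕ → ℕ → ℝ) : ℕ :=
  max (⌊(β 3 (AA (ι 0)) (WW (ι 0)) - d (ι 0) 3) * J⌋₊ +
    b * (⌊AA (ι N) * J⌋₊ - ⌊AA (ι 0) * J⌋₊) - (⌊lam * J⌋₊ + 1)) ⌊(γ - lam) * J⌋₊

theorem gSL_hi (h3 : 0 ≤ β 3 (AA (ι 0)) (WW (ι 0))) (hd : 0 ≤ d (ι 0) 3) (h0 : 0 ≤ AA (ι 0))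
    (ha : AA (ι 0) ≤ AA (ι N))
    (hγ : β 3 (AA (ι 0)) (WW (ι 0)) + b * (AA (ι N) - AA (ι 0)) ≤ γ) (hlam : lam ≤ γ) :
    (gSL b N J γ lam β AA WW ι d : ℝ) ≤ (γ - lam) * J + b := by
  have hb0 : (0 : ℝ) ≤ b := Nat.cast_nonneg b
  have hJ0 : (0 : ℝ) ≤ J := Nat.cast_nonneg J
  have h1 := g3_hi (b := b) (J := J) h3 hd h0 ha
  have h2 := mul_le_mul_of_nonneg_right hγ hJ0
  have h3' : 0 ≤ (γ - lam) * J := mul_nonneg (by linarith) hJ0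
  have h4 := Nat.floor_le h3'
  have h5 := Nat.lt_floor_add_one (lam * (J : ℝ))
  unfold gSL
  rw [Nat.cast_max]
  refine max_le ?_ (by linarith)
  obtain ⟨z, hz⟩ : ∃ z, z = ⌊(β 3 (AA (ι 0)) (WW (ι 0)) - d (ι 0) 3) * (J : ℝ)⌋₊ +
    b * (⌊AA (ι N) * (J : ℝ)⌋₊ - ⌊AA (ι 0) * (J : ℝ)⌋₊) := ⟨_, rfl⟩
  rw [← hz] at h1 ⊢
  rcases le_or_gt (⌊lam * (J : ℝ)⌋₊ + 1) z with h | h
  · rw [Nat.cast_sub h]
    push_cast
    linarith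
  · rw [Nat.sub_eq_zero_of_le h.le, Nat.cast_zero]
    linarith

theorem gST_le : gST b N J γ β AA WW ι d ≤ gSL b N J γ lam β AA WW ι d + (⌊lam * J⌋₊ + 1) := by
  have hJ0 : (0 : ℝ) ≤ J := Nat.cast_nonneg J
  unfold gST gSL
  refine max_le ?_ ?_
  · exact (Nat.sub_le_iff_le_add).1 (le_max_left _ _)
  · have h1 : ⌊γ * (J : ℝ)⌋₊ ≤ ⌊(γ - lam) * (J : ℝ)⌋₊ + (⌊lam * (J : ℝ)⌋₊ + 1) := by
      have h2 := Nat.lt_floor_add_one ((γ - lam) * (J : ℝ))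
      have h3 := Nat.lt_floor_add_one (lam * (J : ℝ))
      have h4 : ⌊γ * (J : ℝ)⌋₊ < ⌊(γ - lam) * (J : ℝ)⌋₊ + (⌊lam * (J : ℝ)⌋₊ + 1) + 1 := by
        refine (Nat.floor_lt' (by omega)).2 ?_
        push_cast
        nlinarith
      omega
    exact h1.trans (Nat.add_le_add_right (le_max_right _ _) _)

/-- **The natural numbers of a static target.** -/
theorem nsl_num (R : NsR b N γ β AA WW ι σ p x s₀) (hlam : lam ≤ γ) (hlam0 : 0 ≤ lam)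
    (hs₀ : 0 ≤ s₀)
    (hJ : b + 4 ≤ s * J) (hι : ∀ k ≤ N, ι k < M) (hσ : σ N < M) (h0 : 0 ≤ AA (ι 0))
    (ham : ∀ k ≤ N, AA (ι 0) ≤ AA (ι k))
    (hd : ∀ k < M, ∀ l ≤ 3, 0 < d k l ∧ d k l ≤ s) (hq : ∀ k ≤ N, p k * J ≤ q' k) :
    NsN ⌊(s₀ + 3 * s) * J⌋₊ b N ⌊AA (ι 0) * J⌋₊ ⌊(β 3 (AA (ι 0)) (WW (ι 0)) - d (ι 0) 3) * J⌋₊
      (gSL b N J γ lam β AA WW ι d) (⌊lam * J⌋₊ + 1) (fun k => ⌊AA (ι k) * J⌋₊) ι σ q'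
      (fun k l => ⌊(β l (AA k) (WW k) - d k l) * J⌋₊) := by
  have n := nsn_num R hs₀ hJ hι hσ h0 ham hd hq
  refine ⟨n.lv, n.lq, ?_, ?_, n.gsn, n.gm⟩
  · exact n.gS0.trans gST_le
  · have h1 := gSL_hi (b := b) (J := J) (lam := lam) R.g3 (hd _ (hι 0 (Nat.zero_le N)) 3 le_rfl).1.le
      h0 (ham N le_rfl) R.γ0 hlam
    have hJ0 : (0 : ℝ) ≤ J := Nat.cast_nonneg J
    exact x3_num h1 hs₀ hJ hσ hd (by linarith [R.ls])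

/-- **The natural numbers of the static chain.** -/
theorem nsc_numL {C Nm X : ℕ} (h1 : (X : ℝ) ≤ γ * J + b)
    (Q : NsQ C N Nm γ β AA WW ι σ p x s₀ s) (hNm : N ≤ Nm)
    (hs : 0 < s) (hs₀ : 0 ≤ s₀) (hJ : b + 4 ≤ s * J) (hι : ∀ k ≤ Nm, ι k < M)
    (hσ : ∀ k, N ≤ k → k ≤ Nm → σ k < M)
    (hd : ∀ k < M, ∀ l ≤ 3, 0 < d k l ∧ d k l ≤ s) (hq : p Nm * J ≤ q' Nm) :
    NsC C ⌊s * J⌋₊ ⌊(s₀ + 3 * s) * J⌋₊ N Nm X ι σ q'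
      (fun k l => ⌊(β l (AA k) (WW k) - d k l) * J⌋₊) := by
  have hb0 : (0 : ℝ) ≤ b := Nat.cast_nonneg b
  have hC0 : (0 : ℝ) ≤ C := Nat.cast_nonneg C
  have hJ4 : 4 ≤ s * J := by linarith
  have hJ0 : (0 : ℝ) ≤ J := Nat.cast_nonneg J
  have hn := Nat.lt_floor_add_one ((s₀ + 3 * s) * (J : ℝ))
  have hs0J : 0 ≤ s₀ * J := mul_nonneg hs₀ hJ0
  have hn' := Nat.floor_le (show 0 ≤ (s₀ + 3 * s) * (J : ℝ) by positivity)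
  have hsf := Nat.floor_le (show 0 ≤ s * (J : ℝ) by positivity)
  have hσN := fl_lo (B := β 2 (AA (σ N)) (WW (σ N))) (J := J)
    (hd _ (hσ N le_rfl hNm) 2 (by norm_num)).2
  have hσm := fl_lo (B := β 3 (AA (σ Nm)) (WW (σ Nm))) (J := J)
    (hd _ (hσ Nm hNm le_rfl) 3 le_rfl).2
  have hCn : (C : ℝ) * (⌊s * (J : ℝ)⌋₊ + ⌊(s₀ + 3 * s) * (J : ℝ)⌋₊ + 1) ≤
      C * (s₀ + 6 * s) * J := by
    rw [mul_assoc]
    refine mul_le_mul_of_nonneg_left ?_ hC0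
    nlinarith
  have hιm := fl_hi (J := J) (hd _ (hι Nm le_rfl) 2 (by norm_num)).1.le Q.m2'
  refine ⟨fun k hk hk' => ?_, fun k hk hk' => ?_, ?_, ?_, ?_, fun l hl => ?_⟩
  · have h2 := fl_hi (J := J) (hd _ (hσ (k + 1) (by omega) hk') 2 (by norm_num)).1.le
      (Q.m2 (k + 1) (by omega) hk')
    have h3 := fl_lo (B := β 3 (AA (σ k)) (WW (σ k))) (J := J)
      (hd _ (hσ k hk hk'.le) 3 le_rfl).2
    have h4 := mul_le_mul_of_nonneg_right (Q.c1 k hk hk') hJ0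
    show ⌊(β 2 (AA (σ (k + 1))) (WW (σ (k + 1))) - d (σ (k + 1)) 2) * (J : ℝ)⌋₊ + X ≤ _
    have h5 : ((⌊(β 2 (AA (σ (k + 1))) (WW (σ (k + 1))) - d (σ (k + 1)) 2) * (J : ℝ)⌋₊ + X : ℕ) :
        ℝ) < ((⌊(s₀ + 3 * s) * (J : ℝ)⌋₊ +
          ⌊(β 2 (AA (σ N)) (WW (σ N)) - d (σ N) 2) * (J : ℝ)⌋₊ +
          ⌊(β 3 (AA (σ k)) (WW (σ k)) - d (σ k) 3) * (J : ℝ)⌋₊ + 1 : ℕ) : ℝ) := by
      push_cast
      nlinarith
    exact Nat.lt_succ_iff.1 (by exact_mod_cast h5)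
  · have h2 := fl_hi (J := J) (hd _ (hσ k hk hk') 2 (by norm_num)).1.le (Q.m2 k hk hk')
    have h3 := fl_lo (B := β 3 (AA (σ k)) (WW (σ k))) (J := J)
      (hd _ (hσ k hk hk') 3 le_rfl).2
    have h4 := mul_le_mul_of_nonneg_right (Q.c2 k hk hk') hJ0
    show ⌊(β 2 (AA (σ k)) (WW (σ k)) - d (σ k) 2) * (J : ℝ)⌋₊ + X ≤ _
    have h5 : ((⌊(β 2 (AA (σ k)) (WW (σ k)) - d (σ k) 2) * (J : ℝ)⌋₊ + X : ℕ) :
        ℝ) < ((⌊(s₀ + 3 * s) * (J : ℝ)⌋₊ +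
          ⌊(β 2 (AA (σ N)) (WW (σ N)) - d (σ N) 2) * (J : ℝ)⌋₊ +
          ⌊(β 3 (AA (σ k)) (WW (σ k)) - d (σ k) 3) * (J : ℝ)⌋₊ + 1 : ℕ) : ℝ) := by
      push_cast
      nlinarith
    exact Nat.lt_succ_iff.1 (by exact_mod_cast h5)
  · have h4 := mul_le_mul_of_nonneg_right Q.c3 hJ0
    have h5 : ((C * (⌊s * (J : ℝ)⌋₊ + ⌊(s₀ + 3 * s) * (J : ℝ)⌋₊ + 1) : ℕ) : ℝ) <
        ((⌊(β 3 (AA (σ Nm)) (WW (σ Nm)) - d (σ Nm) 3) * (J : ℝ)⌋₊ + 1 : ℕ) : ℝ) := by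
      push_cast
      nlinarith
    exact Nat.lt_succ_iff.1 (by exact_mod_cast h5)
  · have h4 := mul_le_mul_of_nonneg_right Q.c4 hJ0
    show ⌊(β 2 (AA (ι Nm)) (WW (ι Nm)) - d (ι Nm) 2) * (J : ℝ)⌋₊ + _ + X ≤ _
    have h5 : ((⌊(β 2 (AA (ι Nm)) (WW (ι Nm)) - d (ι Nm) 2) * (J : ℝ)⌋₊ +
        C * (⌊s * (J : ℝ)⌋₊ + ⌊(s₀ + 3 * s) * (J : ℝ)⌋₊ + 1) + X : ℕ) : ℝ) <
        ((⌊(s₀ + 3 * s) * (J : ℝ)⌋₊ + ⌊(β 2 (AA (σ N)) (WW (σ N)) - d (σ N) 2) * (J : ℝ)⌋₊ +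
          ⌊(β 3 (AA (σ Nm)) (WW (σ Nm)) - d (σ Nm) 3) * (J : ℝ)⌋₊ + 1 : ℕ) : ℝ) := by
      push_cast
      nlinarith
    exact Nat.lt_succ_iff.1 (by exact_mod_cast h5)
  · have h4 := mul_le_mul_of_nonneg_right Q.c5 hJ0
    show ⌊(β 2 (AA (ι Nm)) (WW (ι Nm)) - d (ι Nm) 2) * (J : ℝ)⌋₊ + X ≤ _
    have h5 : ((⌊(β 2 (AA (ι Nm)) (WW (ι Nm)) - d (ι Nm) 2) * (J : ℝ)⌋₊ + X : ℕ) : ℝ) <
        ((⌊(s₀ + 3 * s) * (J : ℝ)⌋₊ + ⌊(β 2 (AA (σ N)) (WW (σ N)) - d (σ N) 2) * (J : ℝ)⌋₊ +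
          q' Nm + 1 : ℕ) : ℝ) := by
      push_cast
      nlinarith
    exact Nat.lt_succ_iff.1 (by exact_mod_cast h5)
  · exact fl_two hJ4 (hd _ (hσ Nm hNm le_rfl) l (by omega)).1.le
      (hd _ (hι Nm le_rfl) l (by omega)).2 (Q.gl l hl)

end

/-- **The input of the jets for a static target, in a class**: for the labels of the family `Ψ`
(closed at the window `w`, precision `pN`), from nodes, blind closed labels at the balls `ι`, and the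
mixed derivative of the static label with a loss `lam`, by the static chain `σ` or at the samples. -/
theorem n1_clsL (D b : ℕ) (hD : 1 ≤ D) : ∃ C₀ C D' K : ℕ, D ≤ D' ∧ ∀ {m Db : ℕ} {S : PCl m}
    {c : ℕ → Fin m} {β : ℕ → ℝ → ℝ → ℝ} {e E : ℝ} (_ : TmH S) (_ : Set.InjOn c (Set.Iio 4))
    (_ : 0 ≤ e) (M : ℕ) (AA WW : ℕ → ℝ) (_ : ∀ k < M, 0 ≤ WW k) (_ : ∀ k < M, WW k ≤ AA k)
    (_ : ∀ k < M, AA k < 1) (_ : ∀ j < M, ∀ k < M, AA j ≤ AA k → WW j ≤ WW k →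
      β 3 (AA j) (WW j) ≤ β 3 (AA k) (WW k))
    (_ : ∀ k < M, NodF S c 3 D β e E (AA k) (WW k)) (N Nm : ℕ) (_ : N ≤ Nm) (ι σ : ℕ → ℕ)
    (_ : ∀ k ≤ Nm, ι k < M ∧ WW (ι k) = AA (ι k)) (_ : ∀ k < Nm, AA (ι k) ≤ AA (ι (k + 1)))
    (_ : ∀ k, N ≤ k → k ≤ Nm → σ k < M ∧ AA (σ k) = AA (ι k) ∧ WW (σ k) = AA (ι 0))
    (v s₀ : ℝ) (_ : ∀ k < N, AA (ι (k + 1)) ≤ AA (ι k) + v) (_ : 0 ≤ s₀)
    (_ : ∀ k ≤ N, β 0 (AA (ι k)) (WW (ι k)) ≤ AA (ι k) + s₀)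
    (_ : AA (ι 0) ≤ β 0 (AA (ι 0)) (WW (ι 0)) + s₀) (_ : AA (ι 0) ≤ β 1 (AA (ι 0)) (WW (ι 0)))
    (_ : ∀ k ≤ N, β 1 (AA (ι k)) (WW (ι k)) ≤
      β 1 (AA (ι 0)) (WW (ι 0)) + (AA (ι k) - AA (ι 0)) + s₀)
    (_ : ∀ k ≤ N, β 1 (AA (ι 0)) (WW (ι 0)) + (AA (ι k) - AA (ι 0)) ≤
      β 1 (AA (ι k)) (WW (ι k)) + s₀) (w pN x γ : ℝ) (p p₂ y : ℕ → ℝ) (Ψ : Fml m)
    (_ : NsR b N γ β AA WW ι σ p y s₀) (lam : ℝ) (_ : 0 ≤ lam) (_ : lam ≤ γ)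
    (_ : w ≤ AA (ι 0)) (_ : 0 ≤ x)
    (_ : β 3 (AA (ι 0)) (WW (ι 0)) ≤ pN + x)
    (_ : ∀ (J : ℕ) (F : Fam m J) (A : F.Ω → Prop) (V : Type) (z : PtT F → V) (z' : LnT F → V)
      (G : V → MvPolynomial (Option (Fin m)) ℝ), Ψ J F A V z z' G →
      LbP F ((range 3).image c) (c 3) D J ⌊w * J⌋₊ ⌊pN * J⌋₊ A z z' G)
    (_ : Db ≤ D) (_ : ∀ k ≤ Nm, BlB S c 2 (c 3) w (AA (ι k)) Db Db (p k) (p₂ k) (y k) Ψ)
    (_ : ∀ k ≤ Nm, ∃ χ : ℝ, 0 < χ ∧ Bas S (fun J F A => ∃ (P₁ : ℕ) (V₁ : Type)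
      (z₁ : PtT F → V₁) (z₁' : LnT F → V₁) (G₁ : V₁ → MvPolynomial (Option (Fin m)) ℝ),
      LbP F ((range 3).image c) (c 3) Db J ⌊AA (ι k) * J⌋₊ P₁ A z₁ z₁' G₁ ∧
        (p k + χ) * J ≤ P₁))
    (_ : ∀ k ≤ Nm, ∃ χ : ℝ, 0 < χ ∧ Bas S (fun J F A => ∃ (P₁ : ℕ) (V₁ : Type)
      (z₁ : PtT F → V₁) (z₁' : LnT F → V₁) (G₁ : V₁ → MvPolynomial (Option (Fin m)) ℝ),
      LbP F ((range 2).image c) (c 2) Db J ⌊AA (ι k) * J⌋₊ P₁ A z₁ z₁' G₁ ∧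
        (p₂ k + χ) * J ≤ P₁)) (Dr : ℕ) (_ : D' ≤ Dr) (s : ℝ) (_ : 0 < s)
    (_ : β 1 (AA (ι 0)) (WW (ι 0)) + C₀ * (s₀ + 4 * s) + e < 1)
    (_ : NsQ C₀ N Nm (γ - lam) β AA WW ι σ p y s₀ s ∨
      MxS S c D Dr M β e E s s₀ w AA WW (σ N) (γ - lam) Ψ),
    ∃ (K₁ : ℝ) (d : ℕ → ℕ → ℝ) (ψ : ℝ), 0 < K₁ ∧ 0 < ψ ∧
      (∀ k < M, ∀ l ≤ 3, 0 < d k l ∧ d k l ≤ s ∧ d k l < AA k) ∧
      Bas S (fun J F A => ∀ (V : Type) (z : PtT F → V) (z' : LnT F → V)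
        (G : V → MvPolynomial (Option (Fin m)) ℝ), Ψ J F A V z z' G →
        ∃ (B : F.Ω → Prop) (Gn : ℕ → PtT F → ℕ → MvPolynomial (Option (Fin m)) ℝ)
          (Hn : ℕ → LnT F → ℕ → MvPolynomial (Option (Fin m)) ℝ)
          (pP : PtT F → ℕ → MvPolynomial (Option (Fin m)) ℝ)
          (pH : LnT F → ℕ → MvPolynomial (Option (Fin m)) ℝ) (xP : PtT F → ℝ) (xH : LnT F → ℝ)
          (zP : PtT F → MvPolynomial (Option (Fin m)) ℝ)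
          (zH : LnT F → MvPolynomial (Option (Fin m)) ℝ) (f : ℕ → PtT F → Po)
          (f' : ℕ → LnT F → Po) (kf : LnT F → Po), Sub B A ∧ Pe F.p A ≤ K₁ * Pe F.p B ∧
          Nls F c 3 D Dr M ⌊s * J⌋₊ (fun j k => AA j ≤ AA k ∧ WW j ≤ WW k)
            (fun k => ⌊AA k * J⌋₊) (fun k => ⌊WW k * J⌋₊) ⌊e * J⌋₊ ⌊(E + s) * J⌋₊
            (fun k l => ⌊(β l (AA k) (WW k) - d k l) * J⌋₊) ⌊s * J⌋₊ (Real.exp (-(ψ * J)))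
            B Gn Hn ∧
          N1L F c D' K b N ⌊AA (ι 0) * J⌋₊ (C₀ * (⌊(s₀ + 3 * s) * J⌋₊ + 1)) (⌊v * J⌋₊ + 1)
            (C * (⌊(s₀ + 3 * s) * J⌋₊ + ⌊v * J⌋₊ + 1)) ⌊e * J⌋₊
            (C * (⌊(s₀ + 3 * s) * J⌋₊ + ⌊v * J⌋₊ + 1) + max ⌊e * J⌋₊ ⌊(E + s) * J⌋₊ + ⌊x * J⌋₊)
            ⌊(β 3 (AA (ι 0)) (WW (ι 0)) - d (ι 0) 3) * J⌋₊ (gST b N J γ β AA WW ι d)
            (⌊lam * J⌋₊ + 1) (fun k => ⌊AA (ι k) * J⌋₊) (fun _ => ⌊(E + s) * J⌋₊)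
            (fun k l => ⌊(β l (AA (ι k)) (WW (ι k)) - d (ι k) l) * J⌋₊) B (fun k => Gn (ι k))
            (fun k => Hn (ι k)) pP pH xP xH (fun y => G (z y)) zP zH f f' kf) := by
  classical
  obtain ⟨C₁, D₁, hDD₁, hinc⟩ := inc_cls D
  have hD₁ : 1 ≤ D₁ := hD.trans hDD₁
  obtain ⟨C₂, K, D₂, hDD₂, hlast⟩ := n1_last D₁ b hD₁
  obtain ⟨C₃, hnsu⟩ := nsu_of D₁ b hD₁
  obtain ⟨C₄, hpre⟩ := nsu_pre D₁ b hD₁
  obtain ⟨C₅, hsmp⟩ := mx_smp D₁ hD₁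
  obtain ⟨C₀, hC₀⟩ : ∃ C₀, C₀ = C₁ + 3 * C₃ + 3 * C₄ + 3 * C₅ + 2 := ⟨_, rfl⟩
  refine ⟨C₀, C₂ * (C₀ + 3) + 2, D₂, K, hDD₁.trans hDD₂, ?_⟩
  intro m Db S c β e E hS hc he0 M AA WW hW0 hWA hA1 hmon hN N Nm hNm ι σ hι ham hσ v s₀ hav hs₀
    hn0 hn0' hg1 hn1 hn1' w pN x γ p p₂ y Ψ R lam hlam0 hlam hwA hx0 hpN hΨ hDb hbl hl3 hl2 Dr hDr s hs hJ1 hmx
  have hDr₁ : D₁ ≤ Dr := hDD₂.trans hDr
  have hC₀1 : (1 : ℝ) ≤ C₀ := by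
    have : 1 ≤ C₀ := by omega
    exact_mod_cast this
  have hc3 : Set.InjOn c (Set.Iio 3) := hc.mono fun x (hx : x < 3) => show x < 4 by omega
  have hAA0 : ∀ k ≤ Nm, AA (ι 0) ≤ AA (ι k) := by
    intro k
    induction k with
    | zero => exact fun _ => le_rfl
    | succ k ih => exact fun hk => (ih (by omega)).trans (ham k (by omega))
  have h00 : 0 ≤ AA (ι 0) := (hW0 _ (hι 0 (Nat.zero_le _)).1).trans
    (hWA _ (hι 0 (Nat.zero_le _)).1)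
  obtain ⟨K₁, d, ψ, hK₁, hψ, hd, hbas⟩ := hinc (r := 3) (by norm_num) hS hc M AA WW hW0 hWA hA1
    hmon hN N ι (fun k hk => (hι k (hk.trans hNm)).1) (fun k hk => (hι k (hk.trans hNm)).2)
    (fun k hk => ham k (by omega)) v s₀ hav hs₀ hn0 hn0' hg1 hn1 hn1' Dr s s hs hs
  have hd' : ∀ k < M, ∀ l ≤ 3, 0 < d k l ∧ d k l ≤ s := fun k hk l hl =>
    ⟨(hd k hk l hl).1, (hd k hk l hl).2.1⟩
  -- large `J`
  obtain ⟨J₁, hJ₁⟩ := exists_nat_ge (((b : ℝ) + Nm + 6) / s)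
  have hlarge : ∀ J : ℕ, J₁ ≤ J → (b : ℝ) + Nm + 6 ≤ s * J := by
    intro J hJ
    have h1 := hJ₁.trans (show (J₁ : ℝ) ≤ J by exact_mod_cast hJ)
    rw [div_le_iff₀ hs] at h1
    linarith
  have hb0 : (0 : ℝ) ≤ b := Nat.cast_nonneg b
  have hNm0 : (0 : ℝ) ≤ Nm := Nat.cast_nonneg Nm
  -- the labels and the nodes
  have hlab := bls_cls (S := S) (c := c) (D := Db) (w := w) (v := fun k => AA (ι k)) (p₁ := p)
    (p₂ := p₂) (x₀ := y) (Ψ := Ψ) hS (Nm + 1) (fun J F A V z z' G hG => (hΨ J F A V z z' G hG).cls)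
    (fun k hk => hbl k (by omega)) (fun k hk => hl3 k (by omega)) (fun k hk => hl2 k (by omega))
  have hpos : Bas S (fun _ F A => 0 < Pe F.p A) := ⟨1, one_pos, 0, fun J _ F A hA => hS.1 1 J F A hA⟩
  -- the static target
  have main : ∃ (K₃ : ℝ) (J₂ : ℕ), 1 ≤ K₃ ∧ Bas S (fun J F A => J₂ ≤ J → ∀ (V : Type)
      (z : PtT F → V) (z' : LnT F → V) (G : V → MvPolynomial (Option (Fin m)) ℝ),
      Ψ J F A V z z' G → ∃ (B₀ B₂ : F.Ω → Prop)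
        (Gn : ℕ → PtT F → ℕ → MvPolynomial (Option (Fin m)) ℝ)
        (Hn : ℕ → LnT F → ℕ → MvPolynomial (Option (Fin m)) ℝ) (xP : PtT F → ℝ)
        (xH : LnT F → ℝ) (pP : PtT F → ℕ → MvPolynomial (Option (Fin m)) ℝ)
        (pH : LnT F → ℕ → MvPolynomial (Option (Fin m)) ℝ), Sub B₀ A ∧
        Pe F.p A ≤ 2 * K₁ * Pe F.p B₀ ∧ Sub B₂ B₀ ∧ Pe F.p B₀ ≤ K₃ * Pe F.p B₂ ∧
        IcO F c D D₁ Dr M N ⌊AA (ι 0) * J⌋₊ ⌊s * J⌋₊ (C₁ * (⌊(s₀ + 3 * s) * J⌋₊ + 1))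
          (⌊v * J⌋₊ + 1) ⌊e * J⌋₊ ⌊(E + s) * J⌋₊ ⌊s * J⌋₊ (Real.exp (-(ψ * J)))
          (fun j k => AA j ≤ AA k ∧ WW j ≤ WW k) (fun k => ⌊AA k * J⌋₊) (fun k => ⌊WW k * J⌋₊)
          (fun k l => ⌊(β l (AA k) (WW k) - d k l) * J⌋₊) ι B₀ Gn Hn pP pH xP xH ∧
        Nsu F c D₁ N ⌊AA (ι 0) * J⌋₊ (C₀ * (⌊(s₀ + 3 * s) * J⌋₊ + 1)) b
          ⌊(β 3 (AA (ι 0)) (WW (ι 0)) - d (ι 0) 3) * J⌋₊ (gSL b N J γ lam β AA WW ι d)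
          (⌊lam * J⌋₊ + 1) (fun k => ⌊AA (ι k) * J⌋₊)
          (fun k l => ⌊(β l (AA (ι k)) (WW (ι k)) - d (ι k) l) * J⌋₊) B₂ (fun k => Gn (ι k))
          (fun k y => Gn (ι k) y 3) (fun k S => Hn (ι k) S 3) (fun S => Hn (σ N) S 3)
          (fun S => Hn (σ N) S 2) (fun y => G (z y))
          (fun S => G (z' (cos F ⌊w * J⌋₊ ⌊AA (ι 0) * J⌋₊ S)))
          (fun l => ⌊(β l (AA (σ N)) (WW (σ N)) - d (σ N) l) * J⌋₊) (Gn (σ N))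
          (fun ω => F.x ω (c 3))) := by
    -- the common part
    have hcom : Bas S (fun J F A => J₁ ≤ J ∧ 0 < Pe F.p A ∧ ∀ (V : Type)
      (z : PtT F → V) (z' : LnT F → V) (G : V → MvPolynomial (Option (Fin m)) ℝ),
      Ψ J F A V z z' G → ∃ (B₀ : F.Ω → Prop)
        (Gn : ℕ → PtT F → ℕ → MvPolynomial (Option (Fin m)) ℝ)
        (Hn : ℕ → LnT F → ℕ → MvPolynomial (Option (Fin m)) ℝ) (xP : PtT F → ℝ)
        (xH : LnT F → ℝ) (pP : PtT F → ℕ → MvPolynomial (Option (Fin m)) ℝ)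
        (pH : LnT F → ℕ → MvPolynomial (Option (Fin m)) ℝ) (q' : ℕ → ℕ)
        (P' : ℕ → PtT F → MvPolynomial (Option (Fin m)) ℝ)
        (R' : ℕ → LnT F → MvPolynomial (Option (Fin m)) ℝ), Sub B₀ A ∧
        Pe F.p A ≤ 2 * K₁ * Pe F.p B₀ ∧
        IcO F c D D₁ Dr M N ⌊AA (ι 0) * J⌋₊ ⌊s * J⌋₊ (C₁ * (⌊(s₀ + 3 * s) * J⌋₊ + 1))
          (⌊v * J⌋₊ + 1) ⌊e * J⌋₊ ⌊(E + s) * J⌋₊ ⌊s * J⌋₊ (Real.exp (-(ψ * J)))
          (fun j k => AA j ≤ AA k ∧ WW j ≤ WW k) (fun k => ⌊AA k * J⌋₊) (fun k => ⌊WW k * J⌋₊)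
          (fun k l => ⌊(β l (AA k) (WW k) - d k l) * J⌋₊) ι B₀ Gn Hn pP pH xP xH ∧
        (∀ k ≤ Nm, p k * J ≤ q' k) ∧
        (∀ k ≤ Nm, Tgt F c 3 D₁ ⌊AA (ι k) * J⌋₊ ⌊AA (ι k) * J⌋₊ (q' k)
          (fun l => ⌊(β l (AA (ι k)) (WW (ι k)) - d (ι k) l) * J⌋₊) B₀ (Gn (ι k))
          (fun ω => F.x ω (c 3)) (P' k) (R' k)) ∧
        ∀ k ≤ Nm, ∀ ω, B₀ ω → |eval (bt F ω) (pderiv (some (c 2)) (P' k (ptr F J ω) -
            G (z (ptr F J ω))))| ≤ (2 : ℝ) ^ (y k * J)) := by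
      refine Bas.mono J₁ (hpos.and (hlab.and (bas_lrg hbas 2))) ?_
      rintro J hJ F A ⟨hA, hl, hb⟩
      refine ⟨hJ, hA, fun V z z' G hG => ?_⟩
      obtain ⟨B₁, q', P', R', a1, a2, a3⟩ := hl V z z' G hG
      obtain ⟨B₀, Gn, Hn, xP, xH, pP, pH, b1, b2, b3, b4, b5, b6, b7, b8, b9⟩ := hb B₁ a1 a2
      refine ⟨B₀, Gn, Hn, xP, xH, pP, pH, q', P', R', fun ω hω => a1 ω (b1 ω hω), ?_,
        ⟨b3, b4, b5, b6, b7, b8, b9⟩, fun k hk => (a3 k (by omega)).1, fun k hk => ?_,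
        fun k hk ω hω => (a3 k (by omega)).2.2.2.2.2.2.2 ω (b1 ω hω)⟩
      · calc Pe F.p A ≤ 2 * Pe F.p B₁ := a2
          _ ≤ 2 * (K₁ * Pe F.p B₀) := by linarith
          _ = _ := by ring
      · obtain ⟨-, c2, c3', c4, c5, c6, c7, -⟩ := a3 k (by omega)
        refine ⟨fun y => (c2 y).trans (hDb.trans hDD₁), fun S => (c3' S).trans (hDb.trans hDD₁),
          c4, c5,
          fun ω hω => c7 ω (a1 ω (b1 ω hω)), fun ω hω b' _ => ?_⟩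
        rw [c6 ω (a1 ω (b1 ω hω)), sub_self, abs_zero]
        positivity
    -- facts on one event
    have num : ∀ J : ℕ, J₁ ≤ J → (b : ℝ) + 4 ≤ s * J ∧ Nm ≤ ⌊s * (J : ℝ)⌋₊ ∧
        ⌊s * (J : ℝ)⌋₊ ≤ ⌊(s₀ + 3 * s) * (J : ℝ)⌋₊ := by
      intro J hJ
      have h1 := hlarge J hJ
      refine ⟨by linarith, Nat.le_floor (by linarith), Nat.floor_le_floor ?_⟩
      exact mul_le_mul_of_nonneg_right (by linarith) (Nat.cast_nonneg J)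
    have hAJ : ∀ (J : ℕ) (k : ℕ), k ≤ Nm → ⌊AA (ι k) * (J : ℝ)⌋₊ ≤ J := fun J k hk => by
      refine Nat.floor_le_of_le ?_
      have h1 := hA1 _ (hι k hk).1
      have h2 : (0 : ℝ) ≤ J := Nat.cast_nonneg J
      nlinarith
    have hfl : ∀ (J : ℕ) {x y : ℝ}, x ≤ y → ⌊x * (J : ℝ)⌋₊ ≤ ⌊y * (J : ℝ)⌋₊ := fun J x y h =>
      Nat.floor_le_floor (mul_le_mul_of_nonneg_right h (Nat.cast_nonneg J))
    have hRι : ∀ k < N, AA (ι k) ≤ AA (ι (k + 1)) ∧ WW (ι k) ≤ WW (ι (k + 1)) := fun k hk =>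
      ⟨ham k (by omega), by
        rw [(hι k (by omega)).2, (hι (k + 1) (by omega)).2]
        exact ham k (by omega)⟩
    have hRσ : ∀ k, N ≤ k → k ≤ Nm → AA (σ k) ≤ AA (ι k) ∧ WW (σ k) ≤ WW (ι k) :=
      fun k h1 h2 => by
        obtain ⟨-, h3, h4⟩ := hσ k h1 h2
        rw [h3, h4, (hι k h2).2]
        exact ⟨le_rfl, hAA0 k h2⟩
    have fam : ∀ (J : ℕ) (F : Fam m J) (A : F.Ω → Prop) (V : Type) (z : PtT F → V)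
        (z' : LnT F → V) (G : V → MvPolynomial (Option (Fin m)) ℝ), Ψ J F A V z z' G →
        (∀ y, (G (z y)).totalDegree ≤ D₁) ∧
        (∀ S, (G (z' (cos F ⌊w * J⌋₊ ⌊AA (ι 0) * J⌋₊ S))).totalDegree ≤ D₁) ∧
        (∀ y, DepC c 3 (G (z y))) ∧
        (∀ S, DepC c 3 (G (z' (cos F ⌊w * J⌋₊ ⌊AA (ι 0) * J⌋₊ S)))) ∧
        (∀ ω, A ω → G (z (ptr F J ω)) =
          G (z' (cos F ⌊w * J⌋₊ ⌊AA (ι 0) * J⌋₊ (slam F ⌊AA (ι 0) * J⌋₊ ω)))) := by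
      intro J F A V z z' G hG
      have k1 := hΨ J F A V z z' G hG
      have dp : ∀ u, DepC c 3 (G u) := fun u b b' hn hb' => k1.dep u b b' hn fun j hj => by
        obtain ⟨l, hl, rfl⟩ := Finset.mem_image.1 hj
        exact hb' l (Finset.mem_range.1 hl)
      refine ⟨fun y => (k1.deg _).trans hDD₁, fun S => (k1.deg _).trans hDD₁, fun y => dp _,
        fun S => dp _, fun ω hω => ?_⟩
      rw [cos_slam F (hfl J hwA) (hAJ J 0 (Nat.zero_le _)), k1.cls ω hω]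
    have hgk : ∀ (J : ℕ), ∀ k ≤ N, ((⌊(β 3 (AA (ι 0)) (WW (ι 0)) - d (ι 0) 3) * (J : ℝ)⌋₊ +
        b * (⌊AA (ι k) * (J : ℝ)⌋₊ - ⌊AA (ι 0) * (J : ℝ)⌋₊) : ℕ) : ℝ) ≤
        (β 3 (AA (ι 0)) (WW (ι 0)) + b * (AA (ι k) - AA (ι 0))) * J + b := fun J k hk =>
      g3_hi (J := J) R.g3 (hd' _ (hι 0 (Nat.zero_le _)).1 3 le_rfl).1.le h00
        (hAA0 k (hk.trans hNm))
    have hgs : ∀ (J : ℕ), (gSL b N J γ lam β AA WW ι d : ℝ) ≤ (γ - lam) * J + b := fun J =>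
      gSL_hi (J := J) R.g3 (hd' _ (hι 0 (Nat.zero_le _)).1 3 le_rfl).1.le h00 (hAA0 N hNm) R.γ0
        hlam
    rcases hmx with hQ | ⟨j, y', hj, hjA, hjW, hj3, hj2, hmx⟩
    · -- the static chain
      obtain ⟨J₂, hJ₂⟩ := share_ex (ψ := ψ) (κ := 1 / (2 ^ 4 * (2 * (2 * N + Nm + 4 : ℕ)))) hψ
        (by positivity)
      refine ⟨2, J₂, by norm_num, Bas.mono 0 hcom ?_⟩
      rintro J - F A ⟨hJ, hA, hcm⟩ hJJ V z z' G hG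
      obtain ⟨B₀, Gn, Hn, xP, xH, pP, pH, q', P', R', b1, b2, b3, b4, b5, b6⟩ := hcm V z z' G hG
      obtain ⟨f1, f2, f3, f4, f5⟩ := fam J F A V z z' G hG
      obtain ⟨n1, n2, n3⟩ := num J hJ
      have hB₀ : 0 < Pe F.p B₀ := by
        by_contra h
        push Not at h
        have h1 : Pe F.p B₀ = 0 := le_antisymm h (Pe_nonneg F.isLaw B₀)
        rw [h1, mul_zero] at b2
        linarith
      obtain ⟨B₂, k1, k2, k3⟩ := hnsu (a := fun k => ⌊AA k * (J : ℝ)⌋₊)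
        (w := fun k => ⌊WW k * (J : ℝ)⌋₊) (A := fun k => ⌊AA (ι k) * (J : ℝ)⌋₊) (ι := ι) (σ := σ)
        (q' := q') (W := ⌊AA (ι 0) * (J : ℝ)⌋₊) (s₁ := ⌊(s₀ + 3 * s) * (J : ℝ)⌋₊)
        (g₃ := ⌊(β 3 (AA (ι 0)) (WW (ι 0)) - d (ι 0) 3) * (J : ℝ)⌋₊) (P' := P') (R' := R')
        (B := B₀) (Gx := fun y => G (z y))
        (Gl := fun S => G (z' (cos F ⌊w * (J : ℝ)⌋₊ ⌊AA (ι 0) * (J : ℝ)⌋₊ S))) hc3
        (Real.exp_pos _) hB₀ (fun _ h => h) hDr₁ (nls_up b3.nls hDD₁) hNm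
        (fun k hk => ⟨(hι k hk).1, rfl, by show ⌊WW (ι k) * (J : ℝ)⌋₊ = _; rw [(hι k hk).2]⟩)
        (fun k h1 h2 => by
          obtain ⟨h3, h4, h5⟩ := hσ k h1 h2
          refine ⟨h3, ?_, ?_⟩
          · show ⌊AA (σ k) * (J : ℝ)⌋₊ = _
            rw [h4]
          · show ⌊WW (σ k) * (J : ℝ)⌋₊ = _
            rw [h5]) (fun k hk => hAJ J k hk) (fun k hk => hfl J (hAA0 k hk))
        (fun k hk => hfl J (ham k hk)) hRι (hRσ N le_rfl hNm) (hRσ Nm hNm le_rfl)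
        (nsl_num R hlam hlam0 hs₀ n1 (fun k hk => (hι k (hk.trans hNm)).1) (hσ N le_rfl hNm).1 h00
          (fun k hk => hAA0 k (hk.trans hNm)) hd' (fun k hk => b4 k (hk.trans hNm)))
        (nsc_numL (hgs J) (nsq_mono hQ (show C₃ ≤ C₀ by omega) hs₀ hs.le) hNm hs hs₀ n1
          (fun k hk => (hι k hk).1) (fun k h1 h2 => (hσ k h1 h2).1) hd' (b4 Nm le_rfl)) b5 f1 f2 f3 f4 (fun ω hω => f5 ω (b1 ω hω))
        (fun k hk ω hω => slp_num (hgk J k hk) hs₀ n1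
          (hι k (hk.trans hNm)).1 hd' (R.bl k hk) (b6 k (hk.trans hNm) ω hω))
        (fun ω hω => slp_num (hgs J) hs₀ n1 (hσ N le_rfl hNm).1 hd' hQ.bm (b6 Nm le_rfl ω hω))
      refine ⟨B₀, B₂, Gn, Hn, xP, xH, pP, pH, b1, b2, k1, ?_, b3, nsu_mono k3 ?_⟩
      · have h1 := hJ₂ J hJJ
        have h2 : (((2 * N + Nm + 4 : ℕ) : ℝ)) * (Real.exp (-(ψ * J)) * 2 ^ 4 * Pe F.p B₀) ≤
            1 / 2 * Pe F.p B₀ := by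
          have h3 : (0 : ℝ) < ((2 * N + Nm + 4 : ℕ) : ℝ) := by positivity
          calc (((2 * N + Nm + 4 : ℕ) : ℝ)) * (Real.exp (-(ψ * J)) * 2 ^ 4 * Pe F.p B₀) ≤
              (((2 * N + Nm + 4 : ℕ) : ℝ)) *
                (1 / (2 ^ 4 * (2 * (2 * N + Nm + 4 : ℕ))) * 2 ^ 4 * Pe F.p B₀) := by gcongr
            _ = _ := by field_simp
        linarith
      · have h1 : C₃ * (⌊s * (J : ℝ)⌋₊ + ⌊s * (J : ℝ)⌋₊ + ⌊(s₀ + 3 * s) * (J : ℝ)⌋₊ + 1) ≤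
            C₃ * (3 * (⌊(s₀ + 3 * s) * (J : ℝ)⌋₊ + 1)) := Nat.mul_le_mul_left _ (by omega)
        rw [hC₀]
        nlinarith [Nat.zero_le (C₁ * (⌊(s₀ + 3 * s) * (J : ℝ)⌋₊ + 1)),
          Nat.zero_le (C₄ * (⌊(s₀ + 3 * s) * (J : ℝ)⌋₊ + 1)),
          Nat.zero_le (C₅ * (⌊(s₀ + 3 * s) * (J : ℝ)⌋₊ + 1))]
    · -- the samples
      obtain ⟨K₂, hK₂, hB⟩ := hmx (2 * K₁) d ψ (by positivity) hψ hd
      have hK₂' : 0 < max K₂ 1 := lt_max_of_lt_right one_pos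
      obtain ⟨J₂, hJ₂⟩ := share_ex (ψ := ψ)
        (κ := 1 / (2 ^ 4 * (2 * (max K₂ 1 * (2 * N + 4 : ℕ))))) hψ (by positivity)
      refine ⟨2 * max K₂ 1, J₂, by linarith [le_max_right K₂ 1], Bas.mono 0 (hcom.and hB) ?_⟩
      rintro J - F A ⟨⟨hJ, hA, hcm⟩, hsm⟩ hJJ V z z' G hG
      obtain ⟨B₀, Gn, Hn, xP, xH, pP, pH, q', P', R', b1, b2, b3, b4, b5, b6⟩ := hcm V z z' G hG
      obtain ⟨f1, f2, f3, f4, f5⟩ := fam J F A V z z' G hG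
      obtain ⟨n1, n2, n3⟩ := num J hJ
      have hB₀ : 0 < Pe F.p B₀ := by
        by_contra h
        push Not at h
        have h1 : Pe F.p B₀ = 0 := le_antisymm h (Pe_nonneg F.isLaw B₀)
        rw [h1, mul_zero] at b2
        linarith
      obtain ⟨B', e1, e2, e3⟩ := hsm V z z' G hG B₀ Gn Hn b1 b2 b3.nls
      have hσN := hσ N le_rfl hNm
      obtain ⟨B₁, k1, k2, k3⟩ := hpre (a := fun k => ⌊AA k * (J : ℝ)⌋₊)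
        (w := fun k => ⌊WW k * (J : ℝ)⌋₊) (A := fun k => ⌊AA (ι k) * (J : ℝ)⌋₊) (ι := ι) (σ := σ)
        (q' := q') (W := ⌊AA (ι 0) * (J : ℝ)⌋₊) (s₁ := ⌊(s₀ + 3 * s) * (J : ℝ)⌋₊)
        (g₃ := ⌊(β 3 (AA (ι 0)) (WW (ι 0)) - d (ι 0) 3) * (J : ℝ)⌋₊) (P' := P') (R' := R')
        (B := B') (Gx := fun y => G (z y))
        (Gl := fun S => G (z' (cos F ⌊w * (J : ℝ)⌋₊ ⌊AA (ι 0) * (J : ℝ)⌋₊ S))) hc3
        (Real.exp_pos _) hB₀ e1 hDr₁ (nls_up b3.nls hDD₁)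
        (fun k hk => ⟨(hι k (hk.trans hNm)).1, rfl, by
          show ⌊WW (ι k) * (J : ℝ)⌋₊ = _
          rw [(hι k (hk.trans hNm)).2]⟩) hσN.1
        (by show ⌊AA (σ N) * (J : ℝ)⌋₊ = _; rw [hσN.2.1])
        (by show ⌊WW (σ N) * (J : ℝ)⌋₊ = _; rw [hσN.2.2]) (fun k hk => hAJ J k (hk.trans hNm))
        (fun k hk => hfl J (hAA0 k (hk.trans hNm))) hRι (hRσ N le_rfl hNm)
        (nsl_num R hlam hlam0 hs₀ n1 (fun k hk => (hι k (hk.trans hNm)).1) (hσ N le_rfl hNm).1 h00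
          (fun k hk => hAA0 k (hk.trans hNm)) hd' (fun k hk => b4 k (hk.trans hNm)))
        (fun k hk => (b5 k (hk.trans hNm)).sub e1) f1 f2 f3 f4
        (fun ω hω => f5 ω (b1 ω (e1 ω hω)))
        (fun k hk ω hω => slp_num (hgk J k hk) hs₀ n1
          (hι k (hk.trans hNm)).1 hd' (R.bl k hk) (b6 k (hk.trans hNm) ω (e1 ω hω)))
      obtain ⟨B₂, l1, l2, l3⟩ := hsmp (a := fun k => ⌊AA k * (J : ℝ)⌋₊)
        (w := fun k => ⌊WW k * (J : ℝ)⌋₊) (s₁ := ⌊(s₀ + 3 * s) * (J : ℝ)⌋₊) (j := σ N) (j' := j)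
        (X := gSL b N J γ lam β AA WW ι d)
        (B := B₁) (Gx := fun y => G (z y))
        (Gl := fun S => G (z' (cos F ⌊w * (J : ℝ)⌋₊ ⌊AA (ι 0) * (J : ℝ)⌋₊ S))) hc3
        (Real.exp_pos _) hB₀ (fun ω hω => e1 ω (k1 ω hω)) hDr₁ (nls_up b3.nls hDD₁) hσN.1 hj
        ⟨hjA, hjW⟩
        (x3_num (hgs J) hs₀ n1 hσN.1 hd' (by linarith [R.ls])) (x3_num (hgs J) hs₀ n1 hj hd' hj3)
        f1 f2 f3 f4 (fun ω hω => by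
          show _ = G (z' (cos F _ _ (slam F ⌊WW (σ N) * (J : ℝ)⌋₊ ω)))
          rw [hσN.2.2]
          exact f5 ω (b1 ω (e1 ω (k1 ω hω))))
        (fun ω hω => slp_num (hgs J) hs₀ n1 hσN.1 hd' hj2 (by
            have h1 := e3 ω (k1 ω hω)
            rw [← (hΨ J F A V z z' G hG).cls ω (b1 ω (e1 ω (k1 ω hω)))] at h1
            exact h1))
      have k4 := k3 B₂ (C₅ * (⌊s * (J : ℝ)⌋₊ + ⌊s * (J : ℝ)⌋₊ + ⌊(s₀ + 3 * s) * (J : ℝ)⌋₊ + 1))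
        l1 (fun ω hω b' hb => by
          have hr : ⌊AA (σ N) * (J : ℝ)⌋₊ = ⌊AA (ι N) * (J : ℝ)⌋₊ := by rw [hσN.2.1]
          have h1 := l3 ω hω b' (by
            show NBx c _ _ ⌊AA (σ N) * (J : ℝ)⌋₊ _ _ _
            rw [hr]
            exact hb)
          have h2 : ⌊WW (σ N) * (J : ℝ)⌋₊ = ⌊AA (ι 0) * (J : ℝ)⌋₊ := by rw [hσN.2.2]
          rw [h2] at h1
          exact h1)
      refine ⟨B₀, B₂, Gn, Hn, xP, xH, pP, pH, b1, b2, fun ω hω => e1 ω (k1 ω (l1 ω hω)), ?_, b3,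
        nsu_mono k4 ?_⟩
      · have h1 := hJ₂ J hJJ
        have hp := Pe_nonneg F.isLaw
        have h2 : (((2 * N + 4 : ℕ) : ℝ)) * (Real.exp (-(ψ * J)) * 2 ^ 4 * Pe F.p B₀) ≤
            1 / (2 * max K₂ 1) * Pe F.p B₀ := by
          have h3 : (0 : ℝ) < ((2 * N + 4 : ℕ) : ℝ) := by positivity
          calc (((2 * N + 4 : ℕ) : ℝ)) * (Real.exp (-(ψ * J)) * 2 ^ 4 * Pe F.p B₀) ≤
              (((2 * N + 4 : ℕ) : ℝ)) *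
                (1 / (2 ^ 4 * (2 * (max K₂ 1 * (2 * N + 4 : ℕ)))) * 2 ^ 4 * Pe F.p B₀) := by
                gcongr
            _ = _ := by field_simp
        have h4 : Pe F.p B₀ ≤ max K₂ 1 * Pe F.p B' :=
          e2.trans (mul_le_mul_of_nonneg_right (le_max_left _ _) (hp B'))
        have h5 : Pe F.p B' ≤ Pe F.p B₂ +
            ((2 * N + 4 : ℕ) : ℝ) * (Real.exp (-(ψ * J)) * 2 ^ 4 * Pe F.p B₀) := by
          push_cast at k2 ⊢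
          linarith
        have h6 : max K₂ 1 * Pe F.p B' ≤ max K₂ 1 * Pe F.p B₂ + 1 / 2 * Pe F.p B₀ := by
          calc max K₂ 1 * Pe F.p B' ≤ max K₂ 1 * (Pe F.p B₂ +
                1 / (2 * max K₂ 1) * Pe F.p B₀) :=
                mul_le_mul_of_nonneg_left (h5.trans (by linarith)) hK₂'.le
            _ = _ := by field_simp
        linarith
      · have h1 : C₄ * (⌊s * (J : ℝ)⌋₊ + ⌊s * (J : ℝ)⌋₊ + ⌊(s₀ + 3 * s) * (J : ℝ)⌋₊ + 1) ≤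
            C₄ * (3 * (⌊(s₀ + 3 * s) * (J : ℝ)⌋₊ + 1)) := Nat.mul_le_mul_left _ (by omega)
        have h2 : C₅ * (⌊s * (J : ℝ)⌋₊ + ⌊s * (J : ℝ)⌋₊ + ⌊(s₀ + 3 * s) * (J : ℝ)⌋₊ + 1) ≤
            C₅ * (3 * (⌊(s₀ + 3 * s) * (J : ℝ)⌋₊ + 1)) := Nat.mul_le_mul_left _ (by omega)
        rw [hC₀]
        nlinarith [Nat.zero_le (C₁ * (⌊(s₀ + 3 * s) * (J : ℝ)⌋₊ + 1)),
          Nat.zero_le (C₃ * (⌊(s₀ + 3 * s) * (J : ℝ)⌋₊ + 1))]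
  obtain ⟨K₃, J₂, hK₃, hmain⟩ := main
  have hK₃0 : 0 < K₃ := lt_of_lt_of_le one_pos hK₃
  obtain ⟨J₃, hJ₃⟩ := share_ex (ψ := ψ) (κ := 1 / (2 ^ 4 * (4 * K₃))) hψ (by positivity)
  obtain ⟨J₄, hJ₄⟩ := share_ex (ψ := ψ / 2) (κ := 1 / (2 * K₃)) (half_pos hψ) (by positivity)
  refine ⟨2 * K₁ * K₃ * 2, d, ψ / 2, by positivity, half_pos hψ, hd,
    Bas.mono (max J₁ (max J₂ (max J₃ J₄))) (hpos.and hmain) ?_⟩
  rintro J hJJ F A ⟨hA, hm⟩ V z z' G hG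
  obtain ⟨j1, hJJ⟩ := max_le_iff.1 hJJ
  obtain ⟨j2, hJJ⟩ := max_le_iff.1 hJJ
  obtain ⟨j3, j4⟩ := max_le_iff.1 hJJ
  obtain ⟨B₀, B₂, Gn, Hn, xP, xH, pP, pH, b1, b2, b3, b4, b5, b6⟩ := hm j2 V z z' G hG
  have hJ0 : (0 : ℝ) ≤ J := Nat.cast_nonneg J
  have hp := Pe_nonneg F.isLaw
  have hB₀ : 0 < Pe F.p B₀ := by
    by_contra h
    push Not at h
    have h1 : Pe F.p B₀ = 0 := le_antisymm h (hp B₀)
    rw [h1, mul_zero] at b2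
    linarith
  have n1 := hlarge J j1
  have n2 : Nm ≤ ⌊s * (J : ℝ)⌋₊ := Nat.le_floor (by linarith)
  have n3 : ⌊s * (J : ℝ)⌋₊ ≤ ⌊(s₀ + 3 * s) * (J : ℝ)⌋₊ := Nat.floor_le_floor
    (mul_le_mul_of_nonneg_right (by linarith) hJ0)
  obtain ⟨n, hn⟩ : ∃ n, n = ⌊(s₀ + 3 * s) * (J : ℝ)⌋₊ := ⟨_, rfl⟩
  have hn' : (n : ℝ) ≤ (s₀ + 3 * s) * J := by
    rw [hn]
    exact Nat.floor_le (by positivity)
  rw [← hn] at n3 b5 b6 ⊢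
  have n4 : n + 1 ≤ C₀ * (n + 1) := Nat.le_mul_of_pos_left _ (by omega)
  have n5 : C₁ * (n + 1) ≤ C₀ * (n + 1) := Nat.mul_le_mul_right _ (by omega)
  have pw : ∀ {x y : ℕ}, x ≤ y → (2 : ℝ) ^ x ≤ 2 ^ y := fun h =>
    pow_le_pow_right₀ (by norm_num) h
  have hd0 := hd _ (hι 0 (Nat.zero_le _)).1
  have n6 : ⌊(β 1 (AA (ι 0)) (WW (ι 0)) - d (ι 0) 1) * (J : ℝ)⌋₊ + C₀ * (n + 1) +
      ⌊e * (J : ℝ)⌋₊ + 1 ≤ J := by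
    have h1 := fl_hi (J := J) (hd0 1 (by norm_num)).1.le (h00.trans hg1)
    have h2 := Nat.floor_le (mul_nonneg he0 hJ0)
    have h3 : (β 1 (AA (ι 0)) (WW (ι 0)) + C₀ * (s₀ + 4 * s) + e) * J ≤ 1 * J :=
      mul_le_mul_of_nonneg_right hJ1.le hJ0
    have h4 : (C₀ : ℝ) * n ≤ C₀ * ((s₀ + 3 * s) * J) :=
      mul_le_mul_of_nonneg_left hn' (Nat.cast_nonneg _)
    have h5 : (C₀ : ℝ) * 6 ≤ C₀ * (s * J) :=
      mul_le_mul_of_nonneg_left (by linarith) (Nat.cast_nonneg _)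
    have h6 : ((⌊(β 1 (AA (ι 0)) (WW (ι 0)) - d (ι 0) 1) * (J : ℝ)⌋₊ + C₀ * (n + 1) +
      ⌊e * (J : ℝ)⌋₊ + 1 : ℕ) : ℝ) ≤ (J : ℝ) := by
      push_cast
      nlinarith
    exact_mod_cast h6
  have n7 : ⌊(β 3 (AA (ι 0)) (WW (ι 0)) - d (ι 0) 3) * (J : ℝ)⌋₊ ≤
      ⌊pN * (J : ℝ)⌋₊ + (⌊x * (J : ℝ)⌋₊ + 1) := by
    have h1 : (β 3 (AA (ι 0)) (WW (ι 0)) - d (ι 0) 3) * (J : ℝ) ≤ (pN + x) * J :=
      mul_le_mul_of_nonneg_right (by linarith [(hd0 3 le_rfl).1]) hJ0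
    have h2 := Nat.lt_floor_add_one (pN * (J : ℝ))
    have h3 := Nat.lt_floor_add_one (x * (J : ℝ))
    have h4 : ⌊(β 3 (AA (ι 0)) (WW (ι 0)) - d (ι 0) 3) * (J : ℝ)⌋₊ <
        ⌊pN * (J : ℝ)⌋₊ + (⌊x * (J : ℝ)⌋₊ + 1) + 1 := by
      refine (Nat.floor_lt' (by omega)).2 ?_
      push_cast
      nlinarith
    exact Nat.lt_succ_iff.1 h4
  have k1 := hΨ J F A V z z' G hG
  have nod0 := (nls_up b5.nls hDD₁).nod (ι 0) (hι 0 (Nat.zero_le _)).1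
  have hw0 : ⌊WW (ι 0) * (J : ℝ)⌋₊ = ⌊AA (ι 0) * (J : ℝ)⌋₊ := by rw [(hι 0 (Nat.zero_le _)).2]
  have nod0' : NodW F c 3 D₁ Dr ⌊AA (ι 0) * (J : ℝ)⌋₊ ⌊AA (ι 0) * (J : ℝ)⌋₊ ⌊e * (J : ℝ)⌋₊
      ⌊(E + s) * (J : ℝ)⌋₊ (fun l => ⌊(β l (AA (ι 0)) (WW (ι 0)) - d (ι 0) l) * (J : ℝ)⌋₊)
      ⌊s * (J : ℝ)⌋₊ (Real.exp (-(ψ * J))) B₀ (Gn (ι 0)) (Hn (ι 0)) := by
    have h1 : NodW F c 3 D₁ Dr ⌊AA (ι 0) * (J : ℝ)⌋₊ ⌊WW (ι 0) * (J : ℝ)⌋₊ ⌊e * (J : ℝ)⌋₊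
      ⌊(E + s) * (J : ℝ)⌋₊ (fun l => ⌊(β l (AA (ι 0)) (WW (ι 0)) - d (ι 0) l) * (J : ℝ)⌋₊)
      ⌊s * (J : ℝ)⌋₊ (Real.exp (-(ψ * J))) B₀ (Gn (ι 0)) (Hn (ι 0)) := nod0
    rw [hw0] at h1
    exact h1
  obtain ⟨B₃, zP, zH, f, f', kf, l1, l2, l3⟩ := hlast (κ := Real.exp (-(ψ * J))) (B₀ := B₀)
    (B := B₂) (Gx := fun y => G (z y)) (pN := ⌊pN * (J : ℝ)⌋₊) (x := ⌊x * (J : ℝ)⌋₊ + 1)
    (s := C₀ * (n + 1)) (h := ⌊s * (J : ℝ)⌋₊) gST_le (Real.exp_pos _) hB₀ b3 hDr₁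
    (inc_less (inc_mono b5.inc le_rfl n5) b3) (by omega) (by have := b5.n0; omega) n6
    b5.hp (fun ω hω => b5.xc ω (b3 ω hω))
    (fun ω hω => (b5.xn ω (b3 ω hω)).trans (pw n5))
    (fun ω hω b' h1 h2 => (b5.pg ω (b3 ω hω) b' h1 h2).trans (pw (by omega)))
    nod0' b6
    (fun ω hω => by
      show |F.x ω (c 3) - eval (bt F ω) (G (z (ptr F J ω)))| ≤ _
      rw [k1.cls ω (b1 ω (b3 ω hω))]
      exact k1.pos ω (b1 ω (b3 ω hω))) n7 (Nat.le_add_right _ _)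
    (fun k hk ω hω l hl b' hb => by
      refine (b5.nls.uni (ι 0) (hι 0 (Nat.zero_le _)).1 (ι k) (hι k (hk.trans hNm)).1
        ⟨hAA0 k (hk.trans hNm), by
          rw [(hι 0 (Nat.zero_le _)).2, (hι k (hk.trans hNm)).2]
          exact hAA0 k (hk.trans hNm)⟩ ω (b3 ω hω) l (by omega) b' hb).trans ?_
      exact div_le_div_of_nonneg_right (pw (by omega)) (by positivity))
    (fun k hk l hl => by
      have h1 := fl_two (J := J) (by linarith) (hd0 l (by omega)).1.le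
        (hd _ (hι k (hk.trans hNm)).1 l (by omega)).2.1 (R.gm 0 k (Nat.zero_le _) hk l hl)
      rw [← hn] at h1
      exact h1.trans (by omega))
  have hmass : Pe F.p B₂ ≤ 2 * Pe F.p B₃ := by
    have h1 := hJ₃ J j3
    have h2 : Real.exp (-(ψ * J)) * 2 ^ 4 * Pe F.p B₀ ≤ 1 / 4 * Pe F.p B₂ := by
      calc Real.exp (-(ψ * J)) * 2 ^ 4 * Pe F.p B₀ ≤
            1 / (2 ^ 4 * (4 * K₃)) * 2 ^ 4 * (K₃ * Pe F.p B₂) := by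
            gcongr
        _ = _ := by field_simp
    linarith
  have hmass' : Pe F.p B₀ ≤ K₃ * (2 * Pe F.p B₃) := b4.trans
    (mul_le_mul_of_nonneg_left hmass hK₃0.le)
  refine ⟨B₃, Gn, Hn, pP, pH, xP, xH, zP, zH, f, f', kf, fun ω hω => b1 ω (b3 ω (l1 ω hω)), ?_,
    b5.nls.sub (κ₁ := 1 / (2 * K₃)) (fun ω hω => b3 ω (l1 ω hω)) ?_ (Real.exp_pos _).le ?_,
    n1l_up l3 ?_ ?_⟩
  · calc Pe F.p A ≤ 2 * K₁ * Pe F.p B₀ := b2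
      _ ≤ 2 * K₁ * (K₃ * (2 * Pe F.p B₃)) := mul_le_mul_of_nonneg_left hmass' (by positivity)
      _ = _ := by ring
  · rw [div_mul_eq_mul_div, one_mul, div_le_iff₀ (by positivity)]
    linarith
  · have h1 := hJ₄ J j4
    have h2 : Real.exp (-(ψ * J)) = Real.exp (-(ψ / 2 * J)) * Real.exp (-(ψ / 2 * J)) := by
      rw [← Real.exp_add]
      congr 1
      ring
    rw [h2]
    exact mul_le_mul_of_nonneg_left h1 (Real.exp_pos _).le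
  · have h1 : C₂ * (⌊s * (J : ℝ)⌋₊ + C₀ * (n + 1) + (⌊v * (J : ℝ)⌋₊ + 1) + 1) ≤
        C₂ * ((C₀ + 3) * (n + ⌊v * (J : ℝ)⌋₊ + 1)) :=
      Nat.mul_le_mul_left _ (by nlinarith [Nat.zero_le (C₀ * ⌊v * (J : ℝ)⌋₊)])
    nlinarith
  · have h1 : C₂ * (⌊s * (J : ℝ)⌋₊ + C₀ * (n + 1) + (⌊v * (J : ℝ)⌋₊ + 1) + 1) ≤
        C₂ * ((C₀ + 3) * (n + ⌊v * (J : ℝ)⌋₊ + 1)) :=
      Nat.mul_le_mul_left _ (by nlinarith [Nat.zero_le (C₀ * ⌊v * (J : ℝ)⌋₊)])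
    nlinarith

end Pool.STB65.Ls
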