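import Pool.Agent.H65.STB.Mxr

/-!
# The mixed derivative at a record, with a coarse grid and a loss

`mxs_atL`, `mxs_recL`: as `mxs_at`, `mxs_rec`, the pairs of the window of the family are those of the
coarse grid; the level of the static label with a loss.
-/

set_option autoImplicit false

namespace Pool.STB65

open Finset Real MvPolynomial
open Pool.Agent.H49.Ent Pool.Agent.H32.Dense Pool.STK Pool.KA Pool.KSAT Pool.K2S Pool.PB Pool.S6C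
open Pool.GEN Pool.RCD Pool.LA91 Pool.PKG
open Pool.GRD (LbP)
open Pool.ALT (AlO Fml NzF)
open Pool.STB77 (NodF Nls)
open Pool.STB (nAA nWW nι nσ LsN GrN nAA_ext nWW_ext ball_at ball_zero pair_at box_in lv_lin lv_sta
  lv_mono nι_le)

/-- **The property `MxS` at a record**: the pairs of the window `t + v₀ q` of the family with the
radii `t + (v₀ + k y) q`, `k ≤ R'`, are in the list of the nodes; the static pair has the radius of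
the last one and the window `t + (v₀ + (R' - (pc + 1)) y) q`. -/
theorem mxs_atL (D : ℕ) (hD : 1 ≤ D) : ∃ C : ℕ, ∀ {m : ℕ} {S : PCl m} {al : ℝ}
    {g₀ : ℝ → ℝ} {P₀ : List (Fin m) × Fin m → ℝ → ℝ → ℝ} {θ : ℝ}
    {P₂ : ℕ → List (Fin m) × Fin m → ℝ → ℝ → ℝ} {θ₂ Eb e₂ : ℕ → ℝ}
    {c : ℕ → Fin m} {Pt : ℝ → ℝ → ℝ} {r : ℝ → ℝ} {h Kn g : ℝ} {L T : ℕ → ℝ → ℝ → ℝ}
    {Sl : ℕ → ℝ} {κ : ℕ → Kg} {G : Set ℝ} {S₀ N₀ : ℕ} {A V : ℕ → ℝ} {S₂ N' : ℕ} {V' : ℕ → ℝ}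
    {K ε q t : ℝ}
    (_ : RecG S al g₀ P₀ θ P₂ θ₂ Eb e₂ c Pt r h Kn g L T Sl κ G S₀ N₀ A V S₂ N' V' K ε q t)
    {b : ℕ} (_ : 3 < m) (_ : Sl 3 = b) (_ : κ 3 = .sta) (_ : 0 ≤ ε)
    {v₀ y ρ : ℝ} {Ng P pc N M' Nx R' : ℕ} {Ax Vx : ℕ → ℝ}
    (_ : LsN (v₀ + ((R' : ℝ) - ((pc + 1 : ℕ) : ℝ)) * y) y ρ Ng P Nx Ax Vx N₀ A V N' V' K)
    (_ : GrN y ρ Ng P pc N M') (_ : pc + 1 ≤ R') (_ : R' < Nx)
    (_ : ∀ k ≤ R', Ax k = v₀ + k * y ∧ Vx k = v₀)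
    (_ : ∀ k ≤ R', L 2 (t + (v₀ + k * y) * q) (t + v₀ * q) + b * (((R' : ℝ) - k) * y * q) ≤
      L 2 (t + (v₀ + R' * y) * q) (t + (v₀ + ((R' : ℝ) - ((pc + 1 : ℕ) : ℝ)) * y) * q))
    {Dr : ℕ} (_ : D ≤ Dr) {s s₀ lam pN x : ℝ} (_ : 0 < s)
    (_ : L 3 (t + v₀ * q) (t + v₀ * q) ≤ pN + x) (_ : 0 ≤ x)
    (_ : x + (b * y + 4 * ε) * q + C * s ≤ s₀ + lam) {e E : ℝ} {Ψ : Fml m}
    (_ : ∀ (J : ℕ) (F : Fam m J) (A : F.Ω → Prop) (V : Type) (z : PtT F → V) (z' : LnT F → V)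
      (G : V → MvPolynomial (Option (Fin m)) ℝ), Ψ J F A V z z' G →
      LbP F ((range 3).image c) (c 3) D J ⌊(t + v₀ * q) * J⌋₊ ⌊pN * J⌋₊ A z z' G),
    MxS S c D Dr (Ng + P + 2 + Nx) L e E s s₀ (t + v₀ * q)
        (nAA t q (v₀ + ((R' : ℝ) - ((pc + 1 : ℕ) : ℝ)) * y) y ρ Ng P Ax)
        (nWW t q (v₀ + ((R' : ℝ) - ((pc + 1 : ℕ) : ℝ)) * y) ρ Ng P Vx) (nσ Ng pc N N)
        (L 3 (nAA t q (v₀ + ((R' : ℝ) - ((pc + 1 : ℕ) : ℝ)) * y) y ρ Ng P Ax (nι N M' 0))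
            (nWW t q (v₀ + ((R' : ℝ) - ((pc + 1 : ℕ) : ℝ)) * y) ρ Ng P Vx (nι N M' 0)) +
          b * (nAA t q (v₀ + ((R' : ℝ) - ((pc + 1 : ℕ) : ℝ)) * y) y ρ Ng P Ax (nι N M' N) -
            nAA t q (v₀ + ((R' : ℝ) - ((pc + 1 : ℕ) : ℝ)) * y) y ρ Ng P Ax (nι N M' 0)) - lam) Ψ := by
  obtain ⟨C, hdn⟩ := mxs_dn D hD
  refine ⟨C, ?_⟩
  intro m S al g₀ P₀ θ P₂ θ₂ Eb e₂ c Pt r h Kn g L T Sl κ G S₀ N₀ A V S₂ N' V' K ε q t R b hm S3 hκ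
    hε v₀ y ρ Ng P pc N M' Nx R' Ax Vx H gr hN hR' hx hpk Dr hDr s s₀ lam pN x hs hpN hx0 hs₀ e E Ψ hΨ
  obtain ⟨n₁, hn₁⟩ : ∃ n₁ : ℕ, n₁ = pc + 1 := ⟨_, rfl⟩
  rw [← hn₁] at hN hpk H ⊢
  obtain ⟨oW, hoW⟩ : ∃ oW, oW = v₀ + ((R' : ℝ) - n₁) * y := ⟨_, rfl⟩
  rw [← hoW] at H ⊢
  have hq := R.q0
  have hy := gr.y0
  have hρq : 0 < y * q := mul_pos hy hq
  have hb0 : (0 : ℝ) ≤ b := Nat.cast_nonneg b
  have hN' : (n₁ : ℝ) ≤ R' := by exact_mod_cast hN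
  have hN0 : (0 : ℝ) ≤ n₁ := Nat.cast_nonneg n₁
  have hR0 : (0 : ℝ) ≤ R' := Nat.cast_nonneg R'
  have hεq : 0 ≤ ε * q := by positivity
  have hεs : x + b * (y * q) + 4 * (ε * q) + C * s ≤ s₀ + lam := by linarith
  obtain ⟨z1, z2, z3, z4⟩ := ball_zero R H gr
  have hσ := pair_at R H gr (i := 0) (by have := gr.pP; omega)
  rw [Nat.add_zero] at hσ
  obtain ⟨s1, s2, s3, s4, s5, s6, s7⟩ := hσ
  have hNy : ((pc + 1 + 0 : ℕ) : ℝ) * y = n₁ * y := by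
    rw [hn₁, Nat.add_zero]
  rw [hNy] at s4 s5 s6 s7
  have e1 : oW + n₁ * y = v₀ + R' * y := by
    rw [hoW]
    ring
  rw [e1] at s4 s5 s6 s7
  -- the offsets
  have hv₀ : -K ≤ v₀ ∧ v₀ + R' * y ≤ K := by
    obtain ⟨x1, x2, x3⟩ := H.x0 0 (by omega)
    have := (hx 0 (Nat.zero_le _)).2
    rw [this] at x1
    exact ⟨x1, s6⟩
  have hbox : ∀ z : ℝ, 0 ≤ z → z ≤ R' → -K ≤ v₀ + z * y ∧ v₀ + z * y ≤ K := by
    intro z h0 h1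
    have h2 := mul_le_mul_of_nonneg_right h1 hy.le
    have h3 : 0 ≤ z * y := mul_nonneg h0 hy.le
    exact ⟨by linarith [hv₀.1], by linarith [hv₀.2]⟩
  have hle : ∀ {x z : ℝ}, x ≤ z → t + (v₀ + x * y) * q ≤ t + (v₀ + z * y) * q := by
    intro x z h1
    have h2 := mul_le_mul_of_nonneg_right h1 hy.le
    have h3 := mul_le_mul_of_nonneg_right (show v₀ + x * y ≤ v₀ + z * y by linarith) hq.le
    linarith
  have e0 : t + (v₀ + 0 * y) * q = t + v₀ * q := by ring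
  have eW : t + oW * q = t + (v₀ + ((R' : ℝ) - n₁) * y) * q := by rw [hoW]
  have bv := box_in R (o := v₀) hv₀.1 (by have := hv₀.2; have : 0 ≤ R' * y := by positivity
                                          linarith)
  have bW := hbox ((R' : ℝ) - n₁) (by linarith) (by linarith)
  have bN := hbox R' hR0 le_rfl
  have lowv : ∀ {l : ℕ}, l < m → ∀ k ≤ R', 0 ≤ L l (t + (v₀ + k * y) * q) (t + v₀ * q) := by
    intro l hl k hk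
    have hk' : (k : ℝ) ≤ R' := by exact_mod_cast hk
    have hk0 : (0 : ℝ) ≤ k := Nat.cast_nonneg k
    have b1 := box_in R (hbox k hk0 hk').1 (hbox k hk0 hk').2
    have h1 : t + v₀ * q ≤ t + (v₀ + k * y) * q := by rw [← e0]; exact hle hk0
    exact b1.2.1.le.trans (R.low_at hl bv.2.1.le h1 b1.2.2.le)
  -- the static level
  have lin3 : ∀ k ≤ R', L 3 (t + (v₀ + ((R' : ℝ) - n₁) * y) * q)
      (t + (v₀ + ((R' : ℝ) - n₁) * y) * q) + b * (((k : ℝ) - (R' - n₁)) * (y * q)) ≤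
      L 3 (t + (v₀ + k * y) * q) (t + v₀ * q) + 3 * (ε * q) := by
    intro k hk
    have hk' : (k : ℝ) ≤ R' := by exact_mod_cast hk
    have hk0 : (0 : ℝ) ≤ k := Nat.cast_nonneg k
    have b1 := box_in R (hbox k hk0 hk').1 (hbox k hk0 hk').2
    have h1 := abs_le.1 (lv_lin R hm (box_in R bW.1 bW.2).1 b1.1)
    rw [S3] at h1
    have h3 : t - K * q ≤ t + v₀ * q := by
      have := mul_le_mul_of_nonneg_right hv₀.1 hq.le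
      linarith
    have h4 : t + (v₀ + k * y) * q ≤ t + K * q := by
      have := mul_le_mul_of_nonneg_right (hbox k hk0 hk').2 hq.le
      linarith
    have h5 : t + v₀ * q ≤ t + (v₀ + k * y) * q := by rw [← e0]; exact hle hk0
    have h2 := lv_sta R hm hκ h3 h5 h4
    have e2 : t + (v₀ + k * y) * q - (t + (v₀ + ((R' : ℝ) - n₁) * y) * q) =
        ((k : ℝ) - (R' - n₁)) * (y * q) := by ring
    rw [e2] at h1
    linarith [h1.1]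
  have hιN : nAA t q oW y ρ Ng P Ax (nι N M' N) = t + (v₀ + R' * y) * q := s4
  have hγ : L 3 (nAA t q oW y ρ Ng P Ax (nι N M' 0)) (nWW t q oW ρ Ng P Vx (nι N M' 0)) +
      b * (nAA t q oW y ρ Ng P Ax (nι N M' N) - nAA t q oW y ρ Ng P Ax (nι N M' 0)) =
      L 3 (t + (v₀ + ((R' : ℝ) - n₁) * y) * q) (t + (v₀ + ((R' : ℝ) - n₁) * y) * q) +
        b * (n₁ * (y * q)) := by
    rw [hιN, z1, z2, eW]
    ring
  have hδA : ∀ k ≤ R', nAA t q oW y ρ Ng P Ax (Ng + P + 2 + k) = t + (v₀ + k * y) * q :=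
    fun k hk => by rw [nAA_ext, (hx k hk).1]
  have hδW : ∀ k ≤ R', nWW t q oW ρ Ng P Vx (Ng + P + 2 + k) = t + v₀ * q :=
    fun k hk => by rw [nWW_ext, (hx k hk).2]
  rw [hγ]
  refine hdn (R.inj.mono fun x (hx : x < 3) => show x < m by omega) (Ng + P + 2 + Nx) _ _ Dr hDr s s₀
    hs (nσ Ng pc N N) R' (fun k => Ng + P + 2 + k) (fun k hk => ⟨by omega, hδW k hk⟩)
    (fun k hk => by
      rw [hδA k hk.le, hδA (k + 1) hk]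
      exact hle (by push_cast; linarith))
    (by rw [hδA R' le_rfl, s1, hιN]) (by rw [s2, eW, ← e0]; exact hle (by linarith))
    (fun k hk => by
      rw [hδA k hk]
      exact ⟨lowv (by omega) k hk, lowv hm k hk⟩)
    (fun k hk => by
      rw [hδA k hk.le, hδA (k + 1) hk]
      have hk' : ((k + 1 : ℕ) : ℝ) ≤ R' := by exact_mod_cast hk
      have hk0 : (0 : ℝ) ≤ k := Nat.cast_nonneg k
      have b1 := hbox ((k + 1 : ℕ) : ℝ) (by positivity) hk'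
      refine lv_mono R hm bv.2.1.le le_rfl (hle (by push_cast; linarith)) ?_ ?_
        (box_in R b1.1 b1.2).2.2.le
      · rw [← e0]; exact hle hk0
      · rw [← e0]; exact hle (by positivity))
    _ pN (L 2 (t + (v₀ + R' * y) * q) (t + (v₀ + ((R' : ℝ) - n₁) * y) * q) + s₀ - C * s -
      (L 3 (t + (v₀ + ((R' : ℝ) - n₁) * y) * q) (t + (v₀ + ((R' : ℝ) - n₁) * y) * q) +
        b * (n₁ * (y * q)) - lam)) ?_ (fun k hk => ?_) ?_ ?_ ?_ Ψ hΨ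
  · rw [hδA R' le_rfl]
    have h1 := lin3 R' le_rfl
    have e2 : (R' : ℝ) - (R' - n₁) = n₁ := by ring
    rw [e2] at h1
    have : 0 ≤ C * s := by positivity
    have : 0 ≤ b * (y * q) := by positivity
    linarith
  · rw [hδA (k + 1) hk, hδA k hk.le]
    have h1 := hpk (k + 1) hk
    have h2 := lin3 k hk.le
    push_cast at h1 ⊢
    have e2 : (b : ℝ) * (((k : ℝ) - (R' - n₁)) * (y * q)) =
        b * (n₁ * (y * q)) - b * (((R' : ℝ) - (k + 1)) * y * q) - b * (y * q) := by ring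
    rw [e2] at h2
    linarith
  · rw [hδA 0 (Nat.zero_le _)]
    have h1 := hpk 0 (Nat.zero_le _)
    have h2 := lin3 0 (Nat.zero_le _)
    push_cast at h1 h2 ⊢
    have e2 : (b : ℝ) * (((0 : ℝ) - (R' - n₁)) * (y * q)) =
        b * (n₁ * (y * q)) - b * (((R' : ℝ) - 0) * y * q) := by ring
    rw [e2] at h2
    have : 0 ≤ b * (y * q) := by positivity
    linarith
  · rw [hδA 0 (Nat.zero_le _)]
    have h1 := hpk 0 (Nat.zero_le _)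
    have h2 := lin3 0 (Nat.zero_le _)
    push_cast at h1 h2 ⊢
    have e2 : (b : ℝ) * (((0 : ℝ) - (R' - n₁)) * (y * q)) =
        b * (n₁ * (y * q)) - b * (((R' : ℝ) - 0) * y * q) := by ring
    rw [e2] at h2
    rw [e0] at h1 h2 ⊢
    have : 0 ≤ b * (y * q) := by positivity
    linarith
  · rw [s1, hιN, s2, eW]
    linarith

/-- **The property `MxS` of `n1_rec`** for the labels of the alternative, if the slope of `c 2` is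
larger than the static slope: one of the base windows `t + (V' i + (R' - (pc + 1)) y) q`,
`R₁ ≤ R' ≤ R₂`; a coarse grid, with the loss `Lm`. -/
theorem mxs_recL (D : ℕ) (hD : 1 ≤ D) : ∃ C : ℕ, ∀ {S : PCl 4} {al : ℝ}
    {g₀ : ℝ → ℝ} {P₀ : List (Fin 4) × Fin 4 → ℝ → ℝ → ℝ} {θ : ℝ}
    {P₂ : ℕ → List (Fin 4) × Fin 4 → ℝ → ℝ → ℝ} {θ₂ Eb e₂ : ℕ → ℝ}
    {c : ℕ → Fin 4} {Pt : ℝ → ℝ → ℝ} {r : ℝ → ℝ} {h Kn g : ℝ} {L T : ℕ → ℝ → ℝ → ℝ}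
    {Sl : ℕ → ℝ} {κ : ℕ → Kg} {G : Set ℝ} {S₀ N₀ : ℕ} {A V : ℕ → ℝ} {S₂ N' : ℕ} {V' : ℕ → ℝ}
    {K ε q t : ℝ}
    (_ : RecG S al g₀ P₀ θ P₂ θ₂ Eb e₂ c Pt r h Kn g L T Sl κ G S₀ N₀ A V S₂ N' V' K ε q t)
    {b : ℕ} (_ : Sl 3 = b) (_ : κ 3 = .sta) (_ : 0 ≤ ε) (_ : b ≤ Sl 2)
    {Db i j : ℕ} {Rr hh δ lam rr ℓ g₂ X η μ e₀ π₀ : ℝ} {Ψ : Fml 4}
    {w p₁ p₂ eN uN pN pa₁ pa₂ ea ua pa : ℝ}
    (_ : AlO (r₀ := 2) S c L Db N' V' i j Rr hh δ lam rr ℓ g₂ X η μ e₀ π₀ q t Ψ w p₁ p₂ eN uN pN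
      pa₁ pa₂ ea ua pa) (_ : Db * max 1 Db ≤ D) (_ : 0 ≤ δ * lam) {y : ℝ} (_ : 0 < y)
    {pc R₁ R₂ : ℕ} (_ : pc + 1 ≤ R₁) (_ : R₁ ≤ R₂) (_ : -K ≤ V' i) (_ : V' i + R₂ * y ≤ K)
    (_ : Sl 2 * (((pc + 1 : ℕ) : ℝ) * y) + 4 * ε ≤ (Sl 2 - b) * (((R₂ : ℝ) - R₁) * y)),
    ∃ R' : ℕ, R₁ ≤ R' ∧ R' ≤ R₂ ∧ ∀ {ρ : ℝ} {Ng P N M' Nx : ℕ} {Ax Vx : ℕ → ℝ}
      (_ : LsN (V' i + ((R' : ℝ) - ((pc + 1 : ℕ) : ℝ)) * y) y ρ Ng P Nx Ax Vx N₀ A V N' V' K)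
      (_ : GrN y ρ Ng P pc N M') (_ : R' < Nx) (_ : ∀ k ≤ R', Ax k = V' i + k * y ∧ Vx k = V' i)
      {Dr : ℕ} (_ : D ≤ Dr) {s s₀ Lm : ℝ} (_ : 0 < s)
      (_ : (δ * lam + b * y + 4 * ε) * q + C * s ≤ s₀ + Lm)
      {e E : ℝ},
      MxS S c D Dr (Ng + P + 2 + Nx) L e E s s₀ (t + V' i * q)
        (nAA t q (V' i + ((R' : ℝ) - ((pc + 1 : ℕ) : ℝ)) * y) y ρ Ng P Ax)
        (nWW t q (V' i + ((R' : ℝ) - ((pc + 1 : ℕ) : ℝ)) * y) ρ Ng P Vx) (nσ Ng pc N N)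
        (L 3 (nAA t q (V' i + ((R' : ℝ) - ((pc + 1 : ℕ) : ℝ)) * y) y ρ Ng P Ax (nι N M' 0))
            (nWW t q (V' i + ((R' : ℝ) - ((pc + 1 : ℕ) : ℝ)) * y) ρ Ng P Vx (nι N M' 0)) +
          b * (nAA t q (V' i + ((R' : ℝ) - ((pc + 1 : ℕ) : ℝ)) * y) y ρ Ng P Ax (nι N M' N) -
            nAA t q (V' i + ((R' : ℝ) - ((pc + 1 : ℕ) : ℝ)) * y) y ρ Ng P Ax (nι N M' 0)) - Lm)
        (NzF Ψ c 2 (c 3) Db Db Db w (t + V' i * q) p₁ p₂ eN uN pN) := by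
  obtain ⟨C, hat⟩ := mxs_atL D hD
  refine ⟨C, ?_⟩
  intro S al g₀ P₀ θ P₂ θ₂ Eb e₂ c Pt r h Kn g L T Sl κ G S₀ N₀ A V S₂ N' V' K ε q t R b S3 hκ hε
    hab Db i j Rr hh δ lam rr ℓ g₂ X η μ e₀ π₀ Ψ w p₁ p₂ eN uN pN pa₁ pa₂ ea ua pa O hDb hδl y hy pc
    R₁ R₂ hN h12 hv hv2 hnum
  have hq := R.q0
  obtain ⟨R', h1, h2, h3⟩ := dn_pick R (l := 2) (by norm_num) hab hy hN h12 hv hv2 hnum
  refine ⟨R', h1, h2, ?_⟩
  intro ρ Ng P N M' Nx Ax Vx H gr hNx hx Dr hDr s s₀ Lm hs hs₀ e E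
  refine hat R (by norm_num) S3 hκ hε H gr (hN.trans h1) hNx hx h3 hDr (x := δ * lam * q / 8) (pN := pN) hs ?_
    (by positivity) ?_ ?_
  · have h4 := O.pN1
    have h5 : L (2 + 1) (t + V' i * q) (t + V' i * q) = L 3 (t + V' i * q) (t + V' i * q) := rfl
    rw [h5] at h4
    linarith
  · have h4 : 0 ≤ δ * lam * q := by positivity
    have e1 : (δ * lam + b * y + 4 * ε) * q = δ * lam * q + (b * y + 4 * ε) * q := by ring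
    rw [e1] at hs₀
    linarith
  · intro J F A V z z' G hG
    have h4 := Pool.GRD.LbP.of hG.lb
    rw [max_self] at h4
    exact { h4 with deg := fun v => (h4.deg v).trans hDb }

end Pool.STB65
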